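import Pool.Agent.Hhelper14.ZP.Defs

/-!
# Dimension theory of affine varieties over `ℂ`
-/

namespace Pool.Agent.Hhelper14.ZP

open Cardinal

theorem krull_eq_of_integral {A B : Type*} [CommRing A] [IsDomain A] [CommRing B] [IsDomain B]
    [Algebra A B] [Algebra.IsIntegral A B] (hinj : Function.Injective (algebraMap A B)) :
    ringKrullDim A = ringKrullDim B := by
  apply le_antisymm
  · apply iSup_le
    intro l
    -- a prime over the head
    have hover : (⊥ : Ideal B).LiesOver (⊥ : Ideal A) := ⟨by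
      rw [Ideal.under, Ideal.comap_bot_of_injective _ hinj]⟩
    have : Algebra.HasGoingUp A B := Algebra.HasGoingUp.of_isIntegral
    obtain ⟨Q, -, hQ, hQl⟩ := Ideal.exists_ideal_ge_liesOver_of_le (R := A) (S := B)
      (p := ⊥) (q := (RelSeries.head l).asIdeal) (P := ⊥) bot_le
    obtain ⟨L, hL, -, -⟩ := Ideal.exists_ltSeries_of_hasGoingUp l Q
    rw [← hL]
    exact Order.LTSeries.length_le_krullDim L
  · refine Order.krullDim_le_of_strictMono (PrimeSpectrum.comap (algebraMap A B)) ?_
    intro I J hIJ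
    exact Ideal.IsIntegral.comap_lt_comap hIJ

theorem krull_eq_card {B : Type} [CommRing B] [IsDomain B] [Algebra ℂ B]
    [Algebra.FiniteType ℂ B] {ι : Type} [Finite ι] {x : ι → B}
    (hx : IsTranscendenceBasis ℂ x) : ringKrullDim B = Nat.card ι := by
  obtain ⟨s, g, hg, hint⟩ := exists_integral_inj_algHom_of_fg (k := ℂ) (R := B)
  let _ : Algebra (MvPolynomial (Fin s) ℂ) B := g.toRingHom.toAlgebra
  have : IsScalarTower ℂ (MvPolynomial (Fin s) ℂ) B := .of_algebraMap_eq fun c => (g.commutes c).symm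
  have hI : Algebra.IsIntegral (MvPolynomial (Fin s) ℂ) B := ⟨hint⟩
  have hinj : Function.Injective (algebraMap (MvPolynomial (Fin s) ℂ) B) := hg
  have : FaithfulSMul (MvPolynomial (Fin s) ℂ) B := (faithfulSMul_iff_algebraMap_injective _ _).mpr hinj
  have h1 : IsTranscendenceBasis ℂ (algebraMap (MvPolynomial (Fin s) ℂ) B ∘ MvPolynomial.X) :=
    (IsTranscendenceBasis.mvPolynomial (Fin s) ℂ).algebraMap_comp
  have h2 : #ι = #(Fin s) := by
    exact hx.cardinalMk_eq h1
  have h3 : Nat.card ι = s := by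
    rw [Nat.card, h2]
    simp
  rw [← krull_eq_of_integral hinj, MvPolynomial.ringKrullDim_of_isNoetherianRing, h3]
  simp

section maximal

open MvPolynomial

variable {n : ℕ}

/-- translation -/
noncomputable def trans (a : Fin n → ℂ) : MvPolynomial (Fin n) ℂ ≃ₐ[ℂ] MvPolynomial (Fin n) ℂ :=
  AlgEquiv.ofAlgHom (aeval fun i => X i + C (a i)) (aeval fun i => X i - C (a i))
    (by ext i; simp) (by ext i; simp)

theorem mem_max_iff (x : Fin n → ℂ) (p : MvPolynomial (Fin n) ℂ) :
    p ∈ vanishingIdeal ℂ {x} ↔ eval x p = 0 := by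
  rw [mem_vanishingIdeal_singleton_iff]
  simp

theorem comap_trans (a x : Fin n → ℂ) :
    (vanishingIdeal ℂ {x} : Ideal (MvPolynomial (Fin n) ℂ)).comap (trans a).toRingEquiv =
      vanishingIdeal ℂ {x + a} := by
  ext p
  rw [Ideal.mem_comap, mem_max_iff, mem_max_iff]
  have : eval x ((trans a).toRingEquiv p) = eval (x + a) p := by
    have h : (eval x).comp (trans a).toRingEquiv.toRingHom = eval (x + a) := by
      apply MvPolynomial.ringHom_ext
      · intro r
        simp [trans]
      · intro i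
        simp [trans]
    exact congrFun (congrArg DFunLike.coe h) p
  rw [this]

theorem height_max (x : Fin n → ℂ) :
    (vanishingIdeal ℂ {x} : Ideal (MvPolynomial (Fin n) ℂ)).height = n := by
  have hall : ∀ y : Fin n → ℂ, (vanishingIdeal ℂ {y} : Ideal (MvPolynomial (Fin n) ℂ)).height =
      (vanishingIdeal ℂ {x} : Ideal (MvPolynomial (Fin n) ℂ)).height := by
    intro y
    have h := comap_trans (x - y) y
    rw [add_sub_cancel] at h
    rw [← h, RingEquiv.height_comap]
  have h1 : (((⨆ (I : Ideal (MvPolynomial (Fin n) ℂ)) (_ : I.IsMaximal), I.height) : ℕ∞) :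
      WithBot ℕ∞) = n := by
    rw [Ideal.sup_isMaximal_height_eq_ringKrullDim, MvPolynomial.ringKrullDim_of_isNoetherianRing]
    simp
  have h2 : (⨆ (I : Ideal (MvPolynomial (Fin n) ℂ)) (_ : I.IsMaximal), I.height) = (n : ℕ∞) := by
    exact_mod_cast h1
  rw [← h2]
  apply le_antisymm
  · have hmax : (vanishingIdeal ℂ {x} : Ideal (MvPolynomial (Fin n) ℂ)).IsMaximal :=
      isMaximal_iff_eq_vanishingIdeal_singleton.mpr ⟨x, rfl⟩
    exact le_iSup₂_of_le _ hmax le_rfl
  · refine iSup₂_le fun I hI => ?_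
    obtain ⟨y, rfl⟩ := isMaximal_iff_eq_vanishingIdeal_singleton.mp hI
    exact (hall y).le

theorem prime_of_point (x : Fin n → ℂ) :
    (vanishingIdeal ℂ {x} : Ideal (MvPolynomial (Fin n) ℂ)).IsPrime :=
  (isMaximal_iff_eq_vanishingIdeal_singleton.mpr ⟨x, rfl⟩).isPrime

/-- the ideal of a component is a minimal prime over the ideal -/
theorem mem_minimalPrimes_of_isComponent {I : Ideal (MvPolynomial (Fin n) ℂ)}
    {W : Set (Fin n → ℂ)} (hW : IsComponent W (zeroLocus ℂ I)) :
    vanishingIdeal ℂ W ∈ I.minimalPrimes := by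
  obtain ⟨⟨hP, hWP⟩, hWI, hmax⟩ := hW
  refine ⟨⟨hP, ?_⟩, ?_⟩
  · exact le_zeroLocus_iff_le_vanishingIdeal.mp hWI
  · rintro Q ⟨hQ, hIQ⟩ hQP
    have h1 : vanishingIdeal ℂ (zeroLocus ℂ Q) = Q := IsPrime.vanishingIdeal_zeroLocus Q
    have h2 := hmax (zeroLocus ℂ Q) ⟨by rw [h1]; exact hQ, by rw [h1]⟩
      (zeroLocus_anti_mono hIQ) (by rw [← hWP]; exact zeroLocus_anti_mono hQP)
    rw [← h2, h1]

/-- every component of a locus defined by `c` equations has dimension at least `n - c` -/
theorem le_dim_component {c : ℕ} (g : Fin c → MvPolynomial (Fin n) ℂ) {W : Set (Fin n → ℂ)}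
    (hW : IsComponent W (zeroLocus ℂ (Ideal.span (Set.range g)))) : ((n - c : ℕ) : WithBot ℕ∞) ≤ dim W := by
  classical
  set I := Ideal.span (Set.range g) with hI
  set P : Ideal (MvPolynomial (Fin n) ℂ) := vanishingIdeal ℂ W with hPdef
  have hPmin : P ∈ I.minimalPrimes := mem_minimalPrimes_of_isComponent hW
  have hPprime : P.IsPrime := hPmin.1.1
  have hfin := Ideal.finite_minimalPrimes_of_isNoetherianRing _ I
  -- a function vanishing on the other components
  obtain ⟨f, hf, hfP⟩ : ∃ f : MvPolynomial (Fin n) ℂ,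
      (∀ Q ∈ I.minimalPrimes, Q ≠ P → f ∈ Q) ∧ f ∉ P := by
    let S : Finset (Ideal (MvPolynomial (Fin n) ℂ)) := hfin.toFinset.erase P
    by_contra hcon
    push Not at hcon
    have h1 : S.inf id ≤ P := by
      intro f hf
      refine hcon f fun Q hQ hQP => ?_
      have h2 : S.inf id ≤ Q := Finset.inf_le (f := id) (b := Q) (by simp [S, hQ, hQP])
      exact h2 hf
    rw [hPprime.inf_le'] at h1
    obtain ⟨Q, hQS, hQP⟩ := h1
    have hQ : Q ∈ I.minimalPrimes ∧ Q ≠ P := by
      have := Finset.mem_erase.mp hQS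
      exact ⟨hfin.mem_toFinset.mp this.2, this.1⟩
    exact hQ.2 (le_antisymm hQP (hPmin.2 hQ.1.1 hQP))
  obtain ⟨x, hxW, hfx⟩ : ∃ x ∈ W, MvPolynomial.eval x f ≠ 0 := by
    by_contra hcon
    push Not at hcon
    exact hfP (mem_vanishingIdeal_iff.mpr fun x hx => by simpa using hcon x hx)
  set m : Ideal (MvPolynomial (Fin n) ℂ) := vanishingIdeal ℂ {x} with hm
  have hmprime : m.IsPrime := prime_of_point x
  have hPm : P ≤ m := vanishingIdeal_anti_mono (Set.singleton_subset_iff.mpr hxW)
  have hIm : I ≤ m := hPmin.1.2.trans hPm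
  have hfm : f ∉ m := fun h => hfx ((mem_max_iff x f).mp h)
  have h1 := Ideal.height_le_height_add_encard_of_subset (Set.range g) (p := m)
    (fun y hy => hIm (Ideal.subset_span hy))
  rw [← hI, height_max x] at h1
  have h2 : (Set.range g).encard ≤ c := by
    have h3 := Set.encard_image_le g Set.univ
    rw [Set.image_univ, Set.encard_univ] at h3
    simpa using h3
  have hprime' : (m.map (Ideal.Quotient.mk I)).IsPrime := Ideal.isPrime_map_quotientMk_of_isPrime hIm
  have h3 : ((n - c : ℕ) : ℕ∞) ≤ (m.map (Ideal.Quotient.mk I)).height := by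
    have h4 : (n : ℕ∞) ≤ (m.map (Ideal.Quotient.mk I)).height + c := h1.trans (by gcongr)
    rw [ENat.natCast_sub]
    exact tsub_le_iff_right.mpr h4
  have h4 : (m.map (Ideal.Quotient.mk I)).height =
      Order.height (⟨m.map (Ideal.Quotient.mk I), hprime'⟩ : PrimeSpectrum _) :=
    PrimeSpectrum.height_eq_orderHeight ⟨m.map (Ideal.Quotient.mk I), hprime'⟩
  rw [h4] at h3
  obtain ⟨l, hlast, hlen⟩ := Order.exists_series_of_le_height _ h3
  -- all members of the series lie above `P`
  have habove : ∀ i, P ≤ (l i).asIdeal.comap (Ideal.Quotient.mk I) := by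
    intro i
    have hle : (l i).asIdeal ≤ m.map (Ideal.Quotient.mk I) := by
      have h5 : l i ≤ l.last := LTSeries.monotone l (Fin.le_last i)
      rw [hlast] at h5
      exact h5
    have hle' : (l i).asIdeal.comap (Ideal.Quotient.mk I) ≤ m := by
      refine (Ideal.comap_mono hle).trans ?_
      rw [Ideal.comap_map_of_surjective _ Ideal.Quotient.mk_surjective, ← RingHom.ker_eq_comap_bot,
        Ideal.mk_ker, sup_eq_left.mpr hIm]
    have hIle : I ≤ (l i).asIdeal.comap (Ideal.Quotient.mk I) := by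
      intro y hy
      rw [Ideal.mem_comap, Ideal.Quotient.eq_zero_iff_mem.mpr hy]
      exact Ideal.zero_mem _
    have hprime : ((l i).asIdeal.comap (Ideal.Quotient.mk I)).IsPrime := Ideal.IsPrime.comap _
    obtain ⟨Q, hQ, hQle⟩ := Ideal.exists_minimalPrimes_le hIle
    have hQP : Q = P := by
      by_contra hne
      exact hfm (hle' (hQle (hf Q hQ hne)))
    rw [← hQP]
    exact hQle
  rw [dim, ringKrullDim_quotient]
  let L : LTSeries (PrimeSpectrum.zeroLocus (R := MvPolynomial (Fin n) ℂ) (P : Set _)) :=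
    { length := l.length
      toFun := fun i => ⟨PrimeSpectrum.comap (Ideal.Quotient.mk I) (l i), habove i⟩
      step := fun i => by
        have h5 : l i.castSucc < l i.succ := l.step i
        have h5' : PrimeSpectrum.comap (Ideal.Quotient.mk I) (l i.castSucc) <
            PrimeSpectrum.comap (Ideal.Quotient.mk I) (l i.succ) := by
          refine lt_of_le_of_ne (Ideal.comap_mono h5.le) fun heq => ?_
          exact h5.ne (PrimeSpectrum.comap_injective_of_surjective _
            Ideal.Quotient.mk_surjective heq)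
        exact h5' }
  have h7 := Order.LTSeries.length_le_krullDim L
  have h8 : L.length = n - c := hlen
  rw [h8] at h7
  exact h7

end maximal

end Pool.Agent.Hhelper14.ZP
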