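import Pool.Agent.Hhelper14.ZP.Nonempty

/-!
# A residue class of tuples without atypical intersections, and its density
-/

namespace Pool.Agent.Hhelper14.ZP

open MvPolynomial

variable {c n : ℕ} {d : Fin c → Fin n → ℕ}

theorem exists_component (a : Tuple d) (h : (locus a).Nonempty) :
    ∃ W, IsComponent W (locus a) := by
  rw [locus_eq] at h ⊢
  set I := Ideal.span (Set.range (poly a))
  have hI : I ≠ ⊤ := by
    rintro hI
    obtain ⟨x, hx⟩ := h
    rw [hI, zeroLocus_top] at hx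
    exact hx
  obtain ⟨M, hM, hIM⟩ := Ideal.exists_le_maximal I hI
  have := hM.isPrime
  obtain ⟨P, hP, -⟩ := Ideal.exists_minimalPrimes_le hIM
  have hPprime : P.IsPrime := hP.1.1
  have hvan : vanishingIdeal ℂ (zeroLocus ℂ P) = P := IsPrime.vanishingIdeal_zeroLocus P
  refine ⟨zeroLocus ℂ P, ⟨by rw [hvan]; exact hPprime, by rw [hvan]⟩,
    zeroLocus_anti_mono hP.1.2, fun C' hC' hC'I hPC' => ?_⟩
  have h1 : I ≤ vanishingIdeal ℂ C' := le_zeroLocus_iff_le_vanishingIdeal.mp hC'I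
  have h2 : vanishingIdeal ℂ C' ≤ P := by
    rw [← hvan]
    exact vanishingIdeal_anti_mono hPC'
  have h3 : P ≤ vanishingIdeal ℂ C' := hP.2 ⟨hC'.1, h1⟩ h2
  have h4 : vanishingIdeal ℂ C' = P := le_antisymm h2 h3
  rw [← hC'.2, h4]

theorem dim_mono {W W' : Set (Fin n → ℂ)} (h : W ⊆ W') : dim W ≤ dim W' := by
  have h1 : vanishingIdeal ℂ W' ≤ vanishingIdeal ℂ W := vanishingIdeal_anti_mono h
  exact ringKrullDim_le_of_surjective (Ideal.Quotient.factor h1) (Ideal.Quotient.factor_surjective h1)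

/-- The locus is nonempty of pure dimension `n - c`, and neither it nor any of its irreducible
components has an atypical intersection with a special subvariety. -/
def IsGood (a : Tuple d) : Prop :=
  (locus a).Nonempty ∧
  (∀ W, IsComponent W (locus a) → dim W = ((n - c : ℕ) : WithBot ℕ∞) ∧ NoAtypical W) ∧
  NoAtypical (locus a)

theorem isGood_of_modEq (hcn : c ≤ n) (hd : ∀ k i, 1 ≤ d k i) (a : Tuple d) {p₀ : ℕ}
    (hp₀ : p₀.Prime) (h₀ : ∀ k α, a k α ≡ (if α = unitExp hcn d k then 1 else 0) [ZMOD p₀])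
    (H : ∀ r < c, ∀ t : Fin n → Option (Fin r), ∃ p : ℕ, p.Prime ∧
      ∀ k α, a k α ≡ (target d t k α : ℤ) [ZMOD p]) : IsGood a := by
  have hne := locus_nonempty hcn hd hp₀ a h₀
  have H' : ∀ r < c, ∀ t : Fin n → Option (Fin r), ∃ V : ValuationSubring ℂ,
      ∀ x ∈ locus a, ¬ Pattern V t x := by
    intro r hr t
    obtain ⟨p, hp, hpa⟩ := H r hr t
    obtain ⟨V, hV⟩ := exists_val hp
    exact ⟨V, not_pattern hd hr t hV a hpa⟩
  have hcomp := good_of_patterns hcn a H'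
  refine ⟨hne, hcomp, ?_⟩
  obtain ⟨W, hW⟩ := exists_component a hne
  refine criterion hcn ?_ H'
  rw [← (hcomp W hW).1]
  exact dim_mono hW.2.1

/-- **A full residue class of tuples is good.** -/
theorem exists_class (hcn : c ≤ n) (hd : ∀ k i, 1 ≤ d k i) :
    ∃ (M : ℕ) (ρ : Tuple d), 0 < M ∧
      ∀ a : Tuple d, (∀ k α, a k α ≡ ρ k α [ZMOD M]) → IsGood a := by
  classical
  let T := Option (Σ r : Fin c, (Fin n → Option (Fin r)))
  let p : T → ℕ := fun s => Nat.nth Nat.Prime (Fintype.equivFin T s)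
  have hp : ∀ s, (p s).Prime := fun s => Nat.prime_nth_prime _
  have hpinj : Function.Injective p := by
    intro s s' h
    have h1 := Nat.nth_injective Nat.infinite_setOfPred_prime h
    exact (Fintype.equivFin T).injective (Fin.ext h1)
  have hcop : ∀ s s' : T, s ≠ s' → (p s).Coprime (p s') := fun s s' h =>
    (Nat.coprime_primes (hp s) (hp s')).mpr fun h' => h (hpinj h')
  let target' : T → (k : Fin c) → ((i : Fin n) → Fin (d k i + 1)) → ℕ := fun s k α =>
    match s with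
    | none => if α = unitExp hcn d k then 1 else 0
    | some ⟨r, t⟩ => target d t k α
  have hcrt : ∀ k α, ∃ x : ℕ, ∀ s, x ≡ target' s k α [MOD p s] := by
    intro k α
    let x := Nat.chineseRemainderOfFinset (fun s => target' s k α) p Finset.univ
      (fun s _ => (hp s).ne_zero) (fun s _ s' _ h => hcop s s' h)
    exact ⟨x.1, fun s => x.2 s (Finset.mem_univ s)⟩
  choose ρ hρ using hcrt
  refine ⟨∏ s, p s, fun k α => (ρ k α : ℤ), Finset.prod_pos fun s _ => (hp s).pos, fun a ha => ?_⟩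
  have hmod : ∀ s k α, a k α ≡ (target' s k α : ℤ) [ZMOD p s] := by
    intro s k α
    have h1 : a k α ≡ (ρ k α : ℤ) [ZMOD p s] :=
      (ha k α).of_dvd (by exact_mod_cast Finset.dvd_prod_of_mem p (Finset.mem_univ s))
    exact h1.trans (Int.natCast_modEq_iff.mpr (hρ k α s))
  refine isGood_of_modEq hcn hd a (hp none) (fun k α => ?_) fun r hr t =>
    ⟨p (some ⟨⟨r, hr⟩, t⟩), hp _, fun k α => ?_⟩
  · have := hmod none k α
    simp only [target'] at this
    push_cast at this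
    exact this
  · exact hmod (some ⟨⟨r, hr⟩, t⟩) k α

/-- number of integers in `[-H, H]` in a residue class -/
theorem card_residue {M : ℕ} (hM : 0 < M) (v : ℤ) {H : ℕ} (hH : 2 * M ≤ 2 * H + 1) :
    ((2 * H + 1 : ℝ)) / (2 * M) ≤
      ((Finset.Icc (-(H : ℤ)) H).filter (fun x => x ≡ v [ZMOD M])).card := by
  have h0 : Finset.Icc (-(H : ℤ)) H = Finset.Ico (-(H : ℤ)) (H + 1) := by
    ext x
    simp only [Finset.mem_Icc, Finset.mem_Ico]
    omega
  have hM' : (0 : ℤ) < M := by exact_mod_cast hM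
  have h1 := Int.Ico_filter_modEq_card (-(H : ℤ)) (H + 1) hM' v
  rw [h0]
  have hMQ : (0 : ℚ) < M := by exact_mod_cast hM
  have h2 : (2 * H + 1 : ℚ) / (2 * M) ≤
      ((⌈(((H + 1 : ℤ) : ℚ) - v) / ((M : ℤ) : ℚ)⌉ - ⌈(((-(H : ℤ) : ℤ) : ℚ) - v) / ((M : ℤ) : ℚ)⌉ : ℤ) : ℚ) := by
    have h3 := Int.le_ceil ((((H + 1 : ℤ) : ℚ) - v) / ((M : ℤ) : ℚ))
    have h4 := (Int.ceil_lt_add_one ((((-(H : ℤ) : ℤ) : ℚ) - v) / ((M : ℤ) : ℚ))).le
    have h5 : (2 * H + 1 : ℚ) / (2 * M) ≤ (((H + 1 : ℤ) : ℚ) - v) / ((M : ℤ) : ℚ) -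
        ((((-(H : ℤ) : ℤ) : ℚ) - v) / ((M : ℤ) : ℚ) + 1) := by
      push_cast
      have h6 : (2 * M : ℚ) ≤ 2 * H + 1 := by exact_mod_cast hH
      rw [← sub_sub, ← sub_div, le_sub_iff_add_le, div_add_one (by positivity),
        div_le_div_iff₀ (by positivity) (by positivity)]
      nlinarith
    push_cast
    push_cast at h3 h4 h5
    linarith
  have h3 : (2 * H + 1 : ℚ) / (2 * M) ≤
      (((Finset.Ico (-(H : ℤ)) (H + 1)).filter (fun x => x ≡ v [ZMOD M])).card : ℚ) := by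
    refine h2.trans ?_
    have h4 : (⌈(((H + 1 : ℤ) : ℚ) - v) / ((M : ℤ) : ℚ)⌉ -
        ⌈(((-(H : ℤ) : ℤ) : ℚ) - v) / ((M : ℤ) : ℚ)⌉ : ℤ) ≤
        (((Finset.Ico (-(H : ℤ)) (H + 1)).filter (fun x => x ≡ v [ZMOD M])).card : ℤ) := by
      rw [h1]
      exact le_max_left _ _
    exact_mod_cast h4
  have h4 := (Rat.cast_le (K := ℝ)).mpr h3
  push_cast at h4
  exact h4

end Pool.Agent.Hhelper14.ZP
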