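import Pool.Agent.Hhelper14.ZP.Special

/-!
# A valuative criterion for the absence of atypical intersections
-/

namespace Pool.Agent.Hhelper14.ZP

open UpperHalfPlane MvPolynomial

variable {n : ℕ}

/-- The point `x` has, with respect to the valuation ring `V ⊆ ℂ`, the integrality pattern of the
type `t`: the coordinates with label `none` are in `V`, and coordinates with the same label are
simultaneously in `V` or not in `V`. -/
def Pattern {r : ℕ} (V : ValuationSubring ℂ) (t : Fin n → Option (Fin r)) (x : Fin n → ℂ) : Prop :=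
  (∀ i, t i = none → x i ∈ V) ∧ ∀ i i', t i = t i' → (x i ∈ V ↔ x i' ∈ V)

/-- two coordinates in the same block satisfy a modular equation, so they are not independent -/
theorem not_indep {Z : Set (Fin n → ℂ)} {P : Ideal (MvPolynomial (Fin n) ℂ)}
    (hP : vanishingIdeal ℂ Z ≤ P) {I : Finset (Fin n)}
    (hI : AlgebraicIndependent ℂ (fun i : I => xbar P i)) {i i' : Fin n} (hi : i ∈ I) (hi' : i' ∈ I)
    (hne : i ≠ i') {Φ : Polynomial (Polynomial OO)} (hΦ : Φ.Monic)
    (hZ : ∀ x ∈ Z, (Φ.map (Polynomial.eval₂RingHom OO.subtype (x i))).eval (x i') = 0) : False := by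
  classical
  let κ : Polynomial OO →+* MvPolynomial I ℂ :=
    Polynomial.eval₂RingHom (C.comp OO.subtype) (X ⟨i, hi⟩)
  let G : MvPolynomial I ℂ := Φ.eval₂ κ (X ⟨i', hi'⟩)
  have hG : ∀ y : I → ℂ, MvPolynomial.eval y G =
      (Φ.map (Polynomial.eval₂RingHom OO.subtype (y ⟨i, hi⟩))).eval (y ⟨i', hi'⟩) := by
    intro y
    rw [Polynomial.eval_map, Polynomial.hom_eval₂, eval_X]
    congr 1
    apply Polynomial.ringHom_ext
    · intro a
      simp [κ]
    · simp [κ]
  have hG0 : G = 0 := by
    rw [algebraicIndependent_iff] at hI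
    apply hI
    have h1 : aeval (fun j : I => xbar P j) G =
        Ideal.Quotient.mk P (rename (fun j : I => (j : Fin n)) G) := by
      have h2 : (aeval (fun j : I => xbar P j) : MvPolynomial I ℂ →ₐ[ℂ] _) =
          (Ideal.Quotient.mkₐ ℂ P).comp (rename (fun j : I => (j : Fin n))) := by
        ext b
        simp
      rw [h2]
      rfl
    rw [h1, Ideal.Quotient.eq_zero_iff_mem]
    apply hP
    rw [mem_vanishingIdeal_iff]
    intro x hx
    rw [aeval_rename]
    have h3 := hG (x ∘ fun j : I => (j : Fin n))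
    have h4 := hZ x hx
    simp only [Function.comp_apply] at h3
    rw [h4] at h3
    simpa using h3
  have h5 : ∀ z : ℂ, (Φ.map (Polynomial.eval₂RingHom OO.subtype 0)).eval z = 0 := by
    intro z
    have h6 := hG (fun j => if j = ⟨i', hi'⟩ then z else 0)
    rw [hG0, map_zero] at h6
    have h7 : (⟨i, hi⟩ : I) ≠ ⟨i', hi'⟩ := fun h => hne (congrArg Subtype.val h)
    simp only [h7, if_true, if_false] at h6
    exact h6.symm
  have h8 : Φ.map (Polynomial.eval₂RingHom OO.subtype 0) = 0 := Polynomial.funext fun z => by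
    rw [h5, Polynomial.eval_zero]
  exact (hΦ.map _).ne_zero h8

/-- **Valuative criterion.** -/
theorem criterion {c : ℕ} (hcn : c ≤ n) {W : Set (Fin n → ℂ)}
    (hdim : ((n - c : ℕ) : WithBot ℕ∞) ≤ dim W)
    (H : ∀ r < c, ∀ t : Fin n → Option (Fin r), ∃ V : ValuationSubring ℂ,
      ∀ x ∈ W, ¬ Pattern V t x) : NoAtypical W := by
  classical
  rintro Z ⟨r, block, g, s, hb, hg, hs, hZ⟩ C ⟨⟨hP, hPC⟩, hCWZ, -⟩
  have hZ' : Z = {x | ∃ τ : Fin r → ℍ, ∀ i, x i = (block i).elim (jInv (s i))
      (fun b => jInv (gact (g i) (τ b)))} := hZ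
  by_contra hcon
  rw [not_le] at hcon
  set P : Ideal (MvPolynomial (Fin n) ℂ) := vanishingIdeal ℂ C with hPdef
  obtain ⟨I, hI⟩ := exists_basis P
  have hdimC : dim C = I.card := by
    rw [dim, ← hPdef, krull_eq_card hI]
    simp
  have hdimZ := le_dim_special hb hZ'
  have hlt : r < I.card + c := by
    have h1 : ((r : WithBot ℕ∞)) + ((n - c : ℕ) : WithBot ℕ∞) < (I.card : WithBot ℕ∞) + n := by
      rw [← hdimC]
      refine lt_of_le_of_lt ?_ hcon
      gcongr
    have h2 : r + (n - c) < I.card + n := by exact_mod_cast h1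
    omega
  have hZP : vanishingIdeal ℂ Z ≤ P := vanishingIdeal_anti_mono fun x hx => (hCWZ hx).2
  -- the coordinates in `I` lie in distinct blocks
  have hblock : ∀ i : I, ∃ b, block i = some b := by
    intro i
    rw [← Option.ne_none_iff_exists']
    intro hnone
    have h1 : X (i : Fin n) - MvPolynomial.C (jInv (s i)) ∈ P := by
      apply hZP
      rw [mem_vanishingIdeal_iff]
      intro x hx
      rw [hZ'] at hx
      obtain ⟨τ, hτ⟩ := hx
      have h2 := hτ i
      rw [hnone] at h2
      simp [h2]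
    have h2 : xbar P i = algebraMap ℂ _ (jInv (s i)) := by
      rw [← sub_eq_zero]
      have h3 := Ideal.Quotient.eq_zero_iff_mem.mpr h1
      rw [map_sub] at h3
      exact h3
    have h3 := hI.1.transcendental i
    rw [h2] at h3
    exact h3 (isAlgebraic_algebraMap _)
  choose f hf using hblock
  have hfinj : Function.Injective f := by
    intro i i' hii'
    by_contra hne
    have hne' : (i : Fin n) ≠ i' := fun h => hne (Subtype.ext h)
    have hpos : 0 < (g i' * (g i)⁻¹).det.val := by
      rw [map_mul, Units.val_mul]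
      exact mul_pos (hg _) (det_inv_pos (hg _))
    obtain ⟨Φ, hΦ, hΦτ⟩ := modular_eq_rat hpos
    refine not_indep hZP hI.1 i.2 i'.2 hne' hΦ fun x hx => ?_
    rw [hZ'] at hx
    obtain ⟨τ, hτ⟩ := hx
    have h1 := hτ i
    have h2 := hτ i'
    rw [hf i] at h1
    rw [hf i', ← hii'] at h2
    simp only [Option.elim] at h1 h2
    have h3 := hΦτ (gact (g i) (τ (f i)))
    rw [← gact_mul, inv_mul_cancel_right] at h3
    rw [h1, h2]
    exact h3
  -- a generic CM point
  obtain ⟨h, hh0, hgen⟩ := exists_generic P hI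
  obtain ⟨a, haCM, ha⟩ : ∃ a : I → ℂ, (∀ i, a i ∈ CMj) ∧ MvPolynomial.eval a h ≠ 0 := by
    by_contra hcon'
    push Not at hcon'
    apply hh0
    apply MvPolynomial.funext_set (fun _ : I => CMj) (fun _ => CMj_infinite)
    intro a ha
    rw [map_zero]
    exact hcon' a fun i => ha i (Set.mem_univ i)
  obtain ⟨x, hxP, hxa⟩ := hgen a ha
  have hxC : x ∈ C := by rw [← hPC]; exact hxP
  obtain ⟨hxW, hxZ⟩ := hCWZ hxC
  rw [hZ'] at hxZ
  obtain ⟨τ, hτ⟩ := hxZ
  -- the remaining blocks
  let T : Finset (Fin r) := Finset.univ.image f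
  have hT : T.card = I.card := by
    rw [Finset.card_image_of_injective _ hfinj, Finset.card_univ, Fintype.card_coe]
  have hrem : (Tᶜ).card = r - I.card := by
    rw [Finset.card_compl, hT, Fintype.card_fin]
  let e : (Tᶜ : Finset (Fin r)) ≃ Fin (r - I.card) := Finset.equivFinOfCardEq hrem
  have hTle : I.card ≤ r := by
    rw [← hT]
    simpa using Finset.card_le_univ T
  obtain ⟨V, hV⟩ := H (r - I.card) (by omega)
    (fun i => (block i).bind fun b => if hb : b ∈ (Tᶜ : Finset (Fin r)) then some (e ⟨b, hb⟩) else none)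
  have hnone : ∀ i, block i = none → x i ∈ V := by
    intro i hi
    have h1 := hτ i
    rw [hi] at h1
    simp only [Option.elim] at h1
    rw [h1]
    exact OO_le V (jInv_mem_of_isCM (hs i hi))
  have hsome : ∀ i b, block i = some b → (x i ∈ V ↔ jInv (τ b) ∈ V) := by
    intro i b hi
    have h1 := hτ i
    rw [hi] at h1
    simp only [Option.elim] at h1
    rw [h1]
    exact gact_mem_iff V (hg i)
  have hTV : ∀ b ∈ T, jInv (τ b) ∈ V := by
    intro b hb
    obtain ⟨i, -, rfl⟩ := Finset.mem_image.mp hb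
    rw [← hsome i (f i) (hf i), hxa i]
    exact OO_le V (mem_OO_of_CMj (haCM i))
  have hlab : ∀ i, ((block i).bind fun b =>
      if hb : b ∈ (Tᶜ : Finset (Fin r)) then some (e ⟨b, hb⟩) else none) = none → x i ∈ V := by
    intro i hi
    rcases hbi : block i with _ | b
    · exact hnone i hbi
    · rw [hbi, Option.bind_some] at hi
      split_ifs at hi with hb
      rw [hsome i b hbi]
      exact hTV b (by simpa using hb)
  refine hV x hxW ⟨hlab, fun i i' hii' => ?_⟩
  dsimp only at hii'
  rcases hl : ((block i).bind fun b =>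
      if hb : b ∈ (Tᶜ : Finset (Fin r)) then some (e ⟨b, hb⟩) else none) with _ | l
  · exact iff_of_true (hlab i hl) (hlab i' (hii' ▸ hl))
  · have hl' := hii' ▸ hl
    obtain ⟨b, hbi, hb⟩ := Option.bind_eq_some_iff.mp hl
    obtain ⟨b', hbi', hb'⟩ := Option.bind_eq_some_iff.mp hl'
    split_ifs at hb with h1
    split_ifs at hb' with h1'
    have h2 : e ⟨b, h1⟩ = e ⟨b', h1'⟩ := by
      rw [Option.some.inj hb, Option.some.inj hb']
    have h3 : b = b' := congrArg Subtype.val (e.injective h2)
    rw [hsome i b hbi, hsome i' b' hbi', h3]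

/-- irreducible closed subsets have dimension at most `n - c` -/
theorem dim_le_of_pattern {c : ℕ} (hcn : c ≤ n) {W : Set (Fin n → ℂ)}
    (H : ∀ r < c, ∀ t : Fin n → Option (Fin r), ∃ V : ValuationSubring ℂ,
      ∀ x ∈ W, ¬ Pattern V t x) {C : Set (Fin n → ℂ)} (hC : IsIrredClosed C) (hCW : C ⊆ W) :
    dim C ≤ ((n - c : ℕ) : WithBot ℕ∞) := by
  classical
  obtain ⟨hP, hPC⟩ := hC
  set P : Ideal (MvPolynomial (Fin n) ℂ) := vanishingIdeal ℂ C with hPdef
  obtain ⟨I, hI⟩ := exists_basis P
  have hdimC : dim C = I.card := by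
    rw [dim, ← hPdef, krull_eq_card hI]
    simp
  rw [hdimC]
  by_contra hcon
  have hlt : n - c < I.card := by
    rw [not_le] at hcon
    exact_mod_cast hcon
  obtain ⟨h, hh0, hgen⟩ := exists_generic P hI
  obtain ⟨a, haCM, ha⟩ : ∃ a : I → ℂ, (∀ i, a i ∈ CMj) ∧ MvPolynomial.eval a h ≠ 0 := by
    by_contra hcon'
    push Not at hcon'
    apply hh0
    apply MvPolynomial.funext_set (fun _ : I => CMj) (fun _ => CMj_infinite)
    intro a ha
    rw [map_zero]
    exact hcon' a fun i => ha i (Set.mem_univ i)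
  obtain ⟨x, hxP, hxa⟩ := hgen a ha
  have hxC : x ∈ C := by rw [← hPC]; exact hxP
  have hcard : (Iᶜ).card = n - I.card := by rw [Finset.card_compl, Fintype.card_fin]
  have hIle : I.card ≤ n := by simpa using Finset.card_le_univ I
  let e : (Iᶜ : Finset (Fin n)) ≃ Fin (n - I.card) := Finset.equivFinOfCardEq hcard
  obtain ⟨V, hV⟩ := H (n - I.card) (by omega)
    (fun i => if hi : i ∈ (Iᶜ : Finset (Fin n)) then some (e ⟨i, hi⟩) else none)
  have hIV : ∀ i, i ∉ (Iᶜ : Finset (Fin n)) → x i ∈ V := by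
    intro i hi
    have hi' : i ∈ I := by simpa using hi
    rw [show x i = a ⟨i, hi'⟩ from hxa ⟨i, hi'⟩]
    exact OO_le V (mem_OO_of_CMj (haCM _))
  refine hV x (hCW hxC) ⟨fun i hi => ?_, fun i i' hii' => ?_⟩
  · dsimp only at hi
    split_ifs at hi with h1
    exact hIV i h1
  · dsimp only at hii'
    split_ifs at hii' with h1 h2 h2
    · have h3 := e.injective (Option.some.inj hii')
      have h4 : i = i' := congrArg Subtype.val h3
      rw [h4]
    · exact iff_of_true (hIV i h1) (hIV i' h2)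

end Pool.Agent.Hhelper14.ZP
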