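import Mathlib

/-!
# Special subvarieties of `Y(1)ⁿ = ℂⁿ` and atypical intersections
-/

namespace Pool.Agent.Hhelper14.ZP

open UpperHalfPlane MvPolynomial

/-- The `j`-invariant `j(τ) = E₄(τ)³ / Δ(τ)`. -/
noncomputable def jInv (τ : ℍ) : ℂ := ModularForm.E₄ τ ^ 3 / ModularForm.discriminant τ

/-- `τ` is a CM (imaginary quadratic) point of the upper half plane. -/
def IsCM (τ : ℍ) : Prop :=
  ∃ a b c : ℤ, a ≠ 0 ∧ (a : ℂ) * (τ : ℂ) ^ 2 + b * (τ : ℂ) + c = 0

/-- `Z` is a special subvariety of `Y(1)ⁿ`, where `Y(1)ⁿ = (SL₂(ℤ) \ ℍ)ⁿ` is identified with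
`ℂⁿ` by `j` in each coordinate. The coordinates are split into a set where `block i = none`, in
which the `i`-th coordinate is the constant singular modulus `j(s i)`, and `r` nonempty blocks; on
the block `b` the coordinates are `j(g i • τ_b)` with `g i ∈ GL₂(ℚ)⁺` and `τ_b ∈ ℍ` free. -/
def IsSpecial {n : ℕ} (Z : Set (Fin n → ℂ)) : Prop :=
  ∃ (r : ℕ) (block : Fin n → Option (Fin r)) (g : Fin n → GL (Fin 2) ℚ) (s : Fin n → ℍ),
    (∀ b : Fin r, ∃ i, block i = some b) ∧ (∀ i, 0 < (g i).det.val) ∧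
    (∀ i, block i = none → IsCM (s i)) ∧
    Z = {x | ∃ τ : Fin r → ℍ, ∀ i, x i = (block i).elim (jInv (s i))
      (fun b => jInv (Matrix.GeneralLinearGroup.map (algebraMap ℚ ℝ) (g i) • τ b))}

/-- The dimension of (the Zariski closure of) a subset `W` of `ℂⁿ`: the Krull dimension of the
ring of polynomial functions on `W`. -/
noncomputable def dim {n : ℕ} (W : Set (Fin n → ℂ)) : WithBot ℕ∞ :=
  ringKrullDim (MvPolynomial (Fin n) ℂ ⧸ vanishingIdeal ℂ W)

/-- `C` is an irreducible Zariski closed subset of `ℂⁿ`. -/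
def IsIrredClosed {n : ℕ} (C : Set (Fin n → ℂ)) : Prop :=
  (vanishingIdeal ℂ C).IsPrime ∧ zeroLocus ℂ (vanishingIdeal ℂ C) = C

/-- `C` is an irreducible component of `W`: a maximal irreducible closed subset. -/
def IsComponent {n : ℕ} (C W : Set (Fin n → ℂ)) : Prop :=
  IsIrredClosed C ∧ C ⊆ W ∧ ∀ C', IsIrredClosed C' → C' ⊆ W → C ⊆ C' → C' = C

/-- `V ⊆ Y(1)ⁿ` has no atypical intersection: for every special subvariety `Z`, every irreducible
component `C` of `V ∩ Z` satisfies `dim C ≤ dim Z + dim V - n`. -/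
def NoAtypical {n : ℕ} (V : Set (Fin n → ℂ)) : Prop :=
  ∀ Z, IsSpecial Z → ∀ C, IsComponent C (V ∩ Z) → dim C + n ≤ dim Z + dim V

end Pool.Agent.Hhelper14.ZP
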