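import Mathlib

/-!
# Power series on the unit disc with coefficients in a subring
-/

namespace Pool.Agent.Hhelper14.ZP

open Metric Finset

/-- `F` is given on the open unit disc by a power series with coefficients in `O`. -/
def Good (O : Subring ℂ) (F : ℂ → ℂ) : Prop :=
  ∃ a : ℕ → ℂ, (∀ n, a n ∈ O) ∧ ∀ z : ℂ, ‖z‖ < 1 → HasSum (fun n => a n * z ^ n) (F z)

variable {O : Subring ℂ} {F G : ℂ → ℂ}

theorem hasSum_of_eq {f g : ℕ → ℂ} {a : ℂ} (h : HasSum f a) (hfg : ∀ n, g n = f n) :
    HasSum g a := by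
  rwa [show g = f from funext hfg]

theorem Good.congr (h : Good O F) (hFG : ∀ z : ℂ, ‖z‖ < 1 → F z = G z) : Good O G := by
  obtain ⟨a, ha, hs⟩ := h
  exact ⟨a, ha, fun z hz => hFG z hz ▸ hs z hz⟩

theorem Good.const {c : ℂ} (hc : c ∈ O) : Good O (fun _ => c) := by
  refine ⟨fun n => if n = 0 then c else 0, fun n => ?_, fun z _ => ?_⟩
  · dsimp only
    split_ifs
    · exact hc
    · exact O.zero_mem
  · have := hasSum_single (f := fun n : ℕ => (if n = 0 then c else 0) * z ^ n) 0
      (fun n hn => by simp [hn])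
    simpa using this

theorem Good.id : Good O (fun z => z) := by
  refine ⟨fun n => if n = 1 then 1 else 0, fun n => ?_, fun z _ => ?_⟩
  · dsimp only
    split_ifs
    · exact O.one_mem
    · exact O.zero_mem
  · have := hasSum_single (f := fun n : ℕ => (if n = 1 then (1 : ℂ) else 0) * z ^ n) 1
      (fun n hn => by simp [hn])
    simpa using this

theorem Good.add (hF : Good O F) (hG : Good O G) : Good O (fun z => F z + G z) := by
  obtain ⟨a, ha, hs⟩ := hF
  obtain ⟨b, hb, ht⟩ := hG
  refine ⟨fun n => a n + b n, fun n => O.add_mem (ha n) (hb n), fun z hz => ?_⟩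
  simpa [add_mul] using (hs z hz).add (ht z hz)

theorem Good.mul (hF : Good O F) (hG : Good O G) : Good O (fun z => F z * G z) := by
  obtain ⟨a, ha, hs⟩ := hF
  obtain ⟨b, hb, ht⟩ := hG
  refine ⟨fun n => ∑ kl ∈ antidiagonal n, a kl.1 * b kl.2,
    fun n => O.sum_mem fun kl _ => O.mul_mem (ha _) (hb _), fun z hz => ?_⟩
  have h1 := (hs z hz).summable.norm
  have h2 := (ht z hz).summable.norm
  have h3 := (summable_norm_sum_mul_antidiagonal_of_summable_norm h1 h2).of_norm.hasSum
  rw [← tsum_mul_tsum_eq_tsum_sum_antidiagonal_of_summable_norm h1 h2, (hs z hz).tsum_eq,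
    (ht z hz).tsum_eq] at h3
  refine hasSum_of_eq h3 fun n => ?_
  rw [Finset.sum_mul]
  refine Finset.sum_congr rfl fun kl hkl => ?_
  rw [← Finset.HasAntidiagonal.mem_antidiagonal.mp hkl, pow_add]
  ring

theorem Good.pow (hF : Good O F) (m : ℕ) : Good O (fun z => F z ^ m) := by
  induction m with
  | zero => simpa using Good.const (O := O) O.one_mem
  | succ m ih => simpa [pow_succ] using ih.mul hF

theorem Good.const_mul (hF : Good O F) {c : ℂ} (hc : c ∈ O) : Good O (fun z => c * F z) :=
  (Good.const hc).mul hF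

theorem Good.neg (hF : Good O F) : Good O (fun z => - F z) := by
  simpa using hF.const_mul (O.neg_mem O.one_mem)

theorem Good.sub (hF : Good O F) (hG : Good O G) : Good O (fun z => F z - G z) := by
  simpa [sub_eq_add_neg] using hF.add hG.neg

theorem Good.zero_mem (hF : Good O F) : F 0 ∈ O := by
  obtain ⟨a, ha, hs⟩ := hF
  have h1 := hs 0 (by simp)
  have h2 := hasSum_single (f := fun n : ℕ => a n * (0 : ℂ) ^ n) 0
      (fun n hn => by simp [hn])
  have h3 := h1.unique h2
  rw [h3]
  simpa using ha 0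

theorem Good.comp_mul (hF : Good O F) {c : ℂ} (hc : c ∈ O) (hc1 : ‖c‖ ≤ 1) :
    Good O (fun z => F (c * z)) := by
  obtain ⟨a, ha, hs⟩ := hF
  refine ⟨fun n => a n * c ^ n, fun n => O.mul_mem (ha n) (O.pow_mem hc n), fun z hz => ?_⟩
  have h := hs (c * z) (by
    rw [norm_mul]
    exact (mul_le_of_le_one_left (norm_nonneg z) hc1).trans_lt hz)
  simpa [mul_pow, mul_assoc] using h

theorem Good.comp_pow (hF : Good O F) {m : ℕ} (hm : 0 < m) :
    Good O (fun z => F (z ^ m)) := by
  obtain ⟨a, ha, hs⟩ := hF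
  refine ⟨fun n => if m ∣ n then a (n / m) else 0, fun n => ?_, fun z hz => ?_⟩
  · dsimp only
    split_ifs
    · exact ha _
    · exact O.zero_mem
  · have h := hs (z ^ m) (by
      rw [norm_pow]
      exact pow_lt_one₀ (norm_nonneg z) hz hm.ne')
    have hinj : Function.Injective (fun n : ℕ => m * n) := fun x y hxy =>
      Nat.eq_of_mul_eq_mul_left hm hxy
    have h2 := hinj.hasSum_iff (f := fun n : ℕ => (if m ∣ n then a (n / m) else 0) * z ^ n)
      (a := F (z ^ m)) (fun x hx => by
        rw [if_neg, zero_mul]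
        rintro ⟨y, rfl⟩
        exact hx ⟨y, rfl⟩)
    refine h2.mp ?_
    refine hasSum_of_eq h fun n => ?_
    simp only [Function.comp_apply, dvd_mul_right, if_true, Nat.mul_div_cancel_left _ hm, pow_mul]

/-- division by the variable -/
theorem Good.div_id (hF : Good O F) (h0 : F 0 = 0) :
    ∃ G, Good O G ∧ ∀ z : ℂ, ‖z‖ < 1 → F z = z * G z := by
  obtain ⟨a, ha, hs⟩ := hF
  have ha0 : a 0 = 0 := by
    have h1 := hs 0 (by simp)
    have h2 := hasSum_single (f := fun n : ℕ => a n * (0 : ℂ) ^ n) 0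
      (fun n hn => by simp [hn])
    have h3 := h1.unique h2
    rw [h0] at h3
    simpa using h3.symm
  have hsum : ∀ z : ℂ, ‖z‖ < 1 → Summable (fun n => a (n + 1) * z ^ n) := by
    intro z hz
    rcases eq_or_ne z 0 with rfl | hz0
    · exact (hasSum_single (f := fun n : ℕ => a (n + 1) * (0 : ℂ) ^ n) 0
        (fun n hn => by simp [hn])).summable
    · have h1 := (summable_nat_add_iff 1).mpr (hs z hz).summable
      have h2 := h1.mul_left z⁻¹
      refine h2.congr fun n => ?_
      rw [pow_succ]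
      field_simp
  refine ⟨fun z => ∑' n, a (n + 1) * z ^ n, ⟨fun n => a (n + 1), fun n => ha _,
    fun z hz => (hsum z hz).hasSum⟩, fun z hz => ?_⟩
  have h1 := (hs z hz).summable.tsum_eq_zero_add
  rw [(hs z hz).tsum_eq, ha0, zero_mul, zero_add] at h1
  rw [h1, ← tsum_mul_left]
  refine tsum_congr fun n => ?_
  ring

theorem hasFPowerSeriesOnBall_of_hasSum {a : ℕ → ℂ}
    (hs : ∀ z : ℂ, ‖z‖ < 1 → HasSum (fun n => a n * z ^ n) (F z)) :
    HasFPowerSeriesOnBall F (.ofScalars ℂ a) 0 1 := by
  constructor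
  · refine le_of_forall_lt_imp_le_of_dense fun r hr => ?_
    lift r to NNReal using hr.ne_top
    apply FormalMultilinearSeries.le_radius_of_summable
    have h1 := (hs r (by simpa using hr)).summable.norm
    simpa [norm_mul, norm_pow] using h1
  · simp
  · intro y hy
    rw [← ENNReal.coe_one, Metric.eball_coe, NNReal.coe_one, mem_ball_zero_iff] at hy
    simpa [mul_comm] using hs y hy

theorem Good.differentiableOn (hF : Good O F) : DifferentiableOn ℂ F (ball 0 1) := by
  obtain ⟨a, ha, hs⟩ := hF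
  have h := (hasFPowerSeriesOnBall_of_hasSum hs).differentiableOn
  rwa [← ENNReal.coe_one, Metric.eball_coe, NNReal.coe_one] at h

theorem Good.continuousAt_zero (hF : Good O F) : ContinuousAt F 0 :=
  (hF.differentiableOn.differentiableAt (ball_mem_nhds 0 one_pos)).continuousAt

theorem coeff_unique {a b : ℕ → ℂ}
    (hs : ∀ z : ℂ, ‖z‖ < 1 → HasSum (fun n => a n * z ^ n) (F z))
    (ht : ∀ z : ℂ, ‖z‖ < 1 → HasSum (fun n => b n * z ^ n) (F z)) : a = b := by
  have h1 := (hasFPowerSeriesOnBall_of_hasSum hs).hasFPowerSeriesAt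
  have h2 := (hasFPowerSeriesOnBall_of_hasSum ht).hasFPowerSeriesAt
  have h3 := h1.eq_formalMultilinearSeries h2
  funext n
  simpa [FormalMultilinearSeries.coeff_ofScalars] using
    congr_arg (FormalMultilinearSeries.coeff · n) h3

/-- inversion -/
theorem Good.inv (hF : Good O F) (h0 : F 0 = 1) (hne : ∀ z : ℂ, ‖z‖ < 1 → F z ≠ 0) :
    Good O (fun z => (F z)⁻¹) := by
  have hd : DifferentiableOn ℂ (fun z => (F z)⁻¹) (ball 0 1) :=
    hF.differentiableOn.inv fun z hz => hne z (by simpa using hz)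
  obtain ⟨a, ha, hs⟩ := hF
  let b : ℕ → ℂ := fun n => (n.factorial : ℂ)⁻¹ * iteratedDeriv n (fun z => (F z)⁻¹) 0
  have ht : ∀ z : ℂ, ‖z‖ < 1 → HasSum (fun n => b n * z ^ n) (F z)⁻¹ := by
    intro z hz
    have h1 := Complex.hasSum_taylorSeries_on_ball hd (z := z) (by simpa using hz)
    refine hasSum_of_eq h1 fun n => ?_
    simp only [sub_zero, smul_eq_mul, b]
    ring
  have ha0 : a 0 = 1 := by
    have h1 := hs 0 (by simp)
    have h2 := hasSum_single (f := fun n : ℕ => a n * (0 : ℂ) ^ n) 0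
      (fun n hn => by simp [hn])
    have h3 := h1.unique h2
    rw [h0] at h3
    simpa using h3.symm
  -- the product series
  have hprod : ∀ z : ℂ, ‖z‖ < 1 →
      HasSum (fun n => (∑ kl ∈ antidiagonal n, a kl.1 * b kl.2) * z ^ n) (1 : ℂ) := by
    intro z hz
    have h1 := (hs z hz).summable.norm
    have h2 := (ht z hz).summable.norm
    have h3 := (summable_norm_sum_mul_antidiagonal_of_summable_norm h1 h2).of_norm.hasSum
    rw [← tsum_mul_tsum_eq_tsum_sum_antidiagonal_of_summable_norm h1 h2, (hs z hz).tsum_eq,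
      (ht z hz).tsum_eq, mul_inv_cancel₀ (hne z hz)] at h3
    refine hasSum_of_eq h3 fun n => ?_
    rw [Finset.sum_mul]
    refine Finset.sum_congr rfl fun kl hkl => ?_
    rw [← Finset.HasAntidiagonal.mem_antidiagonal.mp hkl, pow_add]
    ring
  have hone : ∀ z : ℂ, ‖z‖ < 1 →
      HasSum (fun n => (if n = 0 then (1 : ℂ) else 0) * z ^ n) (1 : ℂ) := by
    intro z _
    have := hasSum_single (f := fun n : ℕ => (if n = 0 then (1 : ℂ) else 0) * z ^ n) 0
      (fun n hn => by simp [hn])
    simpa using this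
  have hab := coeff_unique (F := fun _ => 1) hprod hone
  refine ⟨b, fun n => ?_, ht⟩
  induction n using Nat.strong_induction_on with
  | _ n ih =>
    have h1 := congrFun hab n
    rw [Finset.Nat.sum_antidiagonal_eq_sum_range_succ_mk, Finset.sum_range_succ'] at h1
    simp only [Nat.sub_zero, ha0, one_mul] at h1
    have h2 : b n = (if n = 0 then (1 : ℂ) else 0) -
        ∑ k ∈ range n, a (k + 1) * b (n - (k + 1)) := by
      rw [← h1]; ring
    rw [h2]
    refine O.sub_mem ?_ (O.sum_mem fun k hk => O.mul_mem (ha _) (ih _ ?_))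
    · split_ifs
      · exact O.one_mem
      · exact O.zero_mem
    · have := Finset.mem_range.mp hk
      omega

end Pool.Agent.Hhelper14.ZP
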