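import Pool.Agent.Hhelper14.ZP.Defs

/-!
# Families of subvarieties of `Y(1)ⁿ` given by integral polynomials
-/

namespace Pool.Agent.Hhelper14.ZP

open MvPolynomial

/-- `c`-tuples of polynomials in `n` variables with integer coefficients, the `k`-th polynomial
being of degree at most `d k i` in the variable `x_i`; such a tuple is given by its coefficients. -/
abbrev Tuple {c n : ℕ} (d : Fin c → Fin n → ℕ) : Type :=
  (k : Fin c) → ((i : Fin n) → Fin (d k i + 1)) → ℤ

variable {c n : ℕ} {d : Fin c → Fin n → ℕ}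

/-- The `k`-th polynomial `∑_α a_{k,α} x^α` of the tuple. -/
noncomputable def poly (a : Tuple d) (k : Fin c) : MvPolynomial (Fin n) ℂ :=
  ∑ α : ((i : Fin n) → Fin (d k i + 1)), C (a k α : ℂ) * ∏ i, X i ^ (α i : ℕ)

/-- The subvariety of `Y(1)ⁿ = ℂⁿ` defined by the tuple. -/
def locus (a : Tuple d) : Set (Fin n → ℂ) := {x | ∀ k, MvPolynomial.eval x (poly a k) = 0}

end Pool.Agent.Hhelper14.ZP
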