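import Pool.Agent.Hhelper14.ZP.FamDefs
import Pool.Agent.Hhelper14.ZP.Criterion

/-!
# Families of subvarieties avoiding all integrality patterns
-/

namespace Pool.Agent.Hhelper14.ZP

open MvPolynomial

variable {c n : ℕ} {d : Fin c → Fin n → ℕ}

theorem eval_poly (a : Tuple d) (k : Fin c) (x : Fin n → ℂ) :
    MvPolynomial.eval x (poly a k) =
      ∑ α : ((i : Fin n) → Fin (d k i + 1)), (a k α : ℂ) * ∏ i, x i ^ (α i : ℕ) := by
  simp [poly, map_sum, map_mul, map_prod]

/-- a valuation ring above `p` -/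
theorem exists_val {p : ℕ} (hp : p.Prime) :
    ∃ V : ValuationSubring ℂ, V.valuation (p : ℂ) < 1 := by
  let A : Subring ℂ := (Int.castRingHom ℂ).range
  have hinj : Function.Injective (Int.castRingHom ℂ) := (Int.castRingHom ℂ).injective_int
  let e : ℤ ≃+* A := RingEquiv.ofBijective (Int.castRingHom ℂ).rangeRestrict
    ⟨fun x y h => hinj (congrArg Subtype.val h), (Int.castRingHom ℂ).rangeRestrict_surjective⟩
  let I : Ideal A := Ideal.comap (e.symm : A →+* ℤ) (Ideal.span {(p : ℤ)})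
  have hI : I ≠ ⊤ := by
    apply Ideal.comap_ne_top
    rw [Ne, Ideal.span_singleton_eq_top]
    intro h
    have := Int.isUnit_iff.mp h
    have := hp.two_le
    omega
  obtain ⟨V, -, hV⟩ := Ideal.image_subset_nonunits_valuationSubring I hI
  refine ⟨V, ?_⟩
  rw [← V.mem_nonunits_iff]
  apply hV
  refine ⟨e p, ?_, by simp [e]⟩
  change (e.symm (e (p : ℤ))) ∈ Ideal.span {(p : ℤ)}
  rw [RingEquiv.symm_apply_apply]
  exact Ideal.mem_span_singleton_self _

theorem val_int_le (V : ValuationSubring ℂ) (m : ℤ) : V.valuation (m : ℂ) ≤ 1 := by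
  rw [V.valuation_le_one_iff]
  exact OO_le V (intCast_mem_OO m)

theorem val_of_dvd {V : ValuationSubring ℂ} {p : ℕ} (hV : V.valuation (p : ℂ) < 1) {m : ℤ}
    (hm : (p : ℤ) ∣ m) : V.valuation (m : ℂ) < 1 := by
  obtain ⟨k, rfl⟩ := hm
  push_cast
  rw [map_mul]
  calc V.valuation (p : ℂ) * V.valuation (k : ℂ) ≤ V.valuation (p : ℂ) * 1 := by
        gcongr
        exact val_int_le V k
    _ < 1 := by rwa [mul_one]

theorem val_of_modEq_one {V : ValuationSubring ℂ} {p : ℕ} (hV : V.valuation (p : ℂ) < 1) {m : ℤ}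
    (hm : m ≡ 1 [ZMOD p]) : V.valuation (m : ℂ) = 1 := by
  have h1 : (p : ℤ) ∣ m - 1 := (Int.modEq_iff_dvd.mp hm.symm)
  have h2 := val_of_dvd hV h1
  have h3 : (m : ℂ) = ((m - 1 : ℤ) : ℂ) + 1 := by push_cast; ring
  rw [h3, Valuation.map_add_eq_of_lt_right _ (by rwa [map_one]), map_one]

/-- the exponent attached to a union of blocks -/
def expo {r : ℕ} (d : Fin c → Fin n → ℕ) (t : Fin n → Option (Fin r)) (U : Finset (Fin r))
    (k : Fin c) : (i : Fin n) → Fin (d k i + 1) :=
  fun i => if ∃ b ∈ U, t i = some b then Fin.last (d k i) else 0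

/-- the residues attached to a type -/
noncomputable def target {r : ℕ} (d : Fin c → Fin n → ℕ) (t : Fin n → Option (Fin r)) (k : Fin c)
    (α : (i : Fin n) → Fin (d k i + 1)) : ℕ :=
  open Classical in
  if ∃ U : Finset (Fin r), (∀ b ∈ U, ∃ i, t i = some b) ∧ U.card = k ∧ α = expo d t U k
    then 1 else 0

/-- **No point of the locus has the pattern.** -/
theorem not_pattern (hd : ∀ k i, 1 ≤ d k i) {r : ℕ} (hr : r < c) (t : Fin n → Option (Fin r))
    {p : ℕ} {V : ValuationSubring ℂ} (hV : V.valuation (p : ℂ) < 1) (a : Tuple d)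
    (ha : ∀ k α, a k α ≡ (target d t k α : ℤ) [ZMOD p]) :
    ∀ x ∈ locus a, ¬ Pattern V t x := by
  classical
  rintro x hx ⟨hx1, hx2⟩
  let U : Finset (Fin r) := Finset.univ.filter fun b => (∃ i, t i = some b) ∧
    ∀ i, t i = some b → x i ∉ V
  have hUcard : U.card < c := lt_of_le_of_lt (by simpa using Finset.card_le_univ U) hr
  let k : Fin c := ⟨U.card, hUcard⟩
  have hUne : ∀ b ∈ U, ∃ i, t i = some b := fun b hb => (Finset.mem_filter.mp hb).2.1
  -- the set of nonintegral coordinates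
  have hS : ∀ i, x i ∉ V ↔ ∃ b ∈ U, t i = some b := by
    intro i
    constructor
    · intro hi
      rcases hti : t i with _ | b
      · exact absurd (hx1 i hti) hi
      · refine ⟨b, ?_, rfl⟩
        simp only [U, Finset.mem_filter, Finset.mem_univ, true_and]
        refine ⟨⟨i, hti⟩, fun i' hi' => ?_⟩
        rw [← hx2 i i' (by rw [hti, hi'])]
        exact hi
    · rintro ⟨b, hb, hti⟩
      exact (Finset.mem_filter.mp hb).2.2 i hti
  have hv1 : ∀ i, x i ∉ V → 1 < V.valuation (x i) := by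
    intro i hi
    by_contra hcon
    exact hi ((V.valuation_le_one_iff _).mp (not_lt.mp hcon))
  have hv2 : ∀ i, x i ∈ V → V.valuation (x i) ≤ 1 := fun i hi => (V.valuation_le_one_iff _).mpr hi
  set β := expo d t U k with hβ
  have hβS : ∀ i, x i ∉ V → (β i : ℕ) = d k i := by
    intro i hi
    rw [hβ, expo, if_pos ((hS i).mp hi)]
    rfl
  have hβS' : ∀ i, x i ∈ V → (β i : ℕ) = 0 := by
    intro i hi
    rw [hβ, expo, if_neg]
    · rfl
    · rw [← hS i]; exact fun h => h hi
  have hM0 : V.valuation (∏ i, x i ^ (β i : ℕ)) ≠ 0 := by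
    rw [map_prod]
    refine Finset.prod_ne_zero_iff.mpr fun i _ => ?_
    rw [map_pow]
    by_cases hi : x i ∈ V
    · rw [hβS' i hi, pow_zero]; exact one_ne_zero
    · exact pow_ne_zero _ (zero_lt_one.trans (hv1 i hi)).ne'
  -- comparison of monomials
  have hle : ∀ (α : (i : Fin n) → Fin (d k i + 1)) (i : Fin n),
      V.valuation (x i ^ (α i : ℕ)) ≤ V.valuation (x i ^ (β i : ℕ)) := by
    intro α i
    rw [map_pow, map_pow]
    by_cases hi : x i ∈ V
    · rw [hβS' i hi, pow_zero]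
      exact pow_le_one₀ zero_le (hv2 i hi)
    · rw [hβS i hi]
      exact pow_le_pow_right₀ (hv1 i hi).le (Nat.lt_succ_iff.mp (α i).2)
  have hlt : ∀ (α : (i : Fin n) → Fin (d k i + 1)), (∃ i, x i ∉ V ∧ (α i : ℕ) < d k i) →
      V.valuation (∏ i, x i ^ (α i : ℕ)) < V.valuation (∏ i, x i ^ (β i : ℕ)) := by
    rintro α ⟨i, hi, hαi⟩
    rw [← Finset.mul_prod_erase _ _ (Finset.mem_univ i),
      ← Finset.mul_prod_erase Finset.univ (fun i => x i ^ (β i : ℕ)) (Finset.mem_univ i),
      map_mul, map_mul]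
    have h1 : V.valuation (x i ^ (α i : ℕ)) < V.valuation (x i ^ (β i : ℕ)) := by
      rw [map_pow, map_pow, hβS i hi]
      exact pow_lt_pow_right₀ (hv1 i hi) hαi
    have h2 : V.valuation (∏ j ∈ Finset.univ.erase i, x j ^ (α j : ℕ)) ≤
        V.valuation (∏ j ∈ Finset.univ.erase i, x j ^ (β j : ℕ)) := by
      rw [map_prod, map_prod]
      exact Finset.prod_le_prod' fun j _ => hle α j
    have h3 : 0 < V.valuation (∏ j ∈ Finset.univ.erase i, x j ^ (β j : ℕ)) := by
      rw [zero_lt_iff]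
      intro h0
      apply hM0
      rw [← Finset.mul_prod_erase Finset.univ (fun i => x i ^ (β i : ℕ)) (Finset.mem_univ i),
        map_mul, h0, mul_zero]
    exact (mul_le_mul_right h2 _).trans_lt (mul_lt_mul_of_pos_right h1 h3)
  -- the relation
  have hrel := hx k
  rw [eval_poly] at hrel
  rw [← Finset.add_sum_erase _ _ (Finset.mem_univ β)] at hrel
  have haβ : V.valuation (a k β : ℂ) = 1 := by
    apply val_of_modEq_one hV
    have h1 := ha k β
    rw [target, if_pos ⟨U, hUne, rfl, rfl⟩] at h1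
    exact_mod_cast h1
  have hmain : V.valuation ((a k β : ℂ) * ∏ i, x i ^ (β i : ℕ)) =
      V.valuation (∏ i, x i ^ (β i : ℕ)) := by
    rw [map_mul, haβ, one_mul]
  have hrest : V.valuation (∑ α ∈ Finset.univ.erase β, (a k α : ℂ) * ∏ i, x i ^ (α i : ℕ)) <
      V.valuation (∏ i, x i ^ (β i : ℕ)) := by
    apply Valuation.map_sum_lt _ hM0
    intro α hα
    have hαβ : α ≠ β := Finset.ne_of_mem_erase hα
    rw [map_mul]
    by_cases hex : ∃ U' : Finset (Fin r), (∀ b ∈ U', ∃ i, t i = some b) ∧ U'.card = k ∧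
        α = expo d t U' k
    · obtain ⟨U', hU', hcard, hαU'⟩ := hex
      have hUU' : ¬ U ⊆ U' := by
        intro hsub
        apply hαβ
        have h1 : U = U' := Finset.eq_of_subset_of_card_le hsub (by rw [hcard])
        rw [hαU', hβ, h1]
      rw [Finset.not_subset] at hUU'
      obtain ⟨b, hbU, hbU'⟩ := hUU'
      obtain ⟨i, hi⟩ := hUne b hbU
      have h1 : x i ∉ V := (hS i).mpr ⟨b, hbU, hi⟩
      have h2 : (α i : ℕ) = 0 := by
        rw [hαU', expo, if_neg]
        · rfl
        · rintro ⟨b', hb', hib'⟩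
          rw [hi] at hib'
          exact hbU' (Option.some.inj hib' ▸ hb')
      have h3 := hlt α ⟨i, h1, by rw [h2]; exact hd k i⟩
      calc V.valuation (a k α : ℂ) * V.valuation (∏ i, x i ^ (α i : ℕ))
          ≤ 1 * V.valuation (∏ i, x i ^ (α i : ℕ)) := by
            gcongr
            exact val_int_le V _
        _ = V.valuation (∏ i, x i ^ (α i : ℕ)) := one_mul _
        _ < _ := h3
    · have h1 := ha k α
      rw [target, if_neg hex] at h1
      have h2 : (p : ℤ) ∣ a k α := (Int.modEq_zero_iff_dvd).mp (by exact_mod_cast h1)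
      have h3 := val_of_dvd hV h2
      have h4 : V.valuation (∏ i, x i ^ (α i : ℕ)) ≤ V.valuation (∏ i, x i ^ (β i : ℕ)) := by
        rw [map_prod, map_prod]
        exact Finset.prod_le_prod' fun j _ => hle α j
      calc V.valuation (a k α : ℂ) * V.valuation (∏ i, x i ^ (α i : ℕ))
          ≤ V.valuation (a k α : ℂ) * V.valuation (∏ i, x i ^ (β i : ℕ)) := by gcongr
        _ < 1 * V.valuation (∏ i, x i ^ (β i : ℕ)) :=
            mul_lt_mul_of_pos_right h3 (zero_lt_iff.mpr hM0)
        _ = _ := one_mul _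
  have h1 : V.valuation ((a k β : ℂ) * ∏ i, x i ^ (β i : ℕ) +
      ∑ α ∈ Finset.univ.erase β, (a k α : ℂ) * ∏ i, x i ^ (α i : ℕ)) =
      V.valuation ((a k β : ℂ) * ∏ i, x i ^ (β i : ℕ)) :=
    Valuation.map_add_eq_of_lt_left _ (by rw [hmain]; exact hrest)
  rw [hrel, map_zero, hmain] at h1
  exact hM0 h1.symm

theorem locus_eq (a : Tuple d) : locus a = zeroLocus ℂ (Ideal.span (Set.range (poly a))) := by
  rw [zeroLocus_span]
  ext x
  simp only [locus, Set.mem_ofPred_eq, Set.mem_range, forall_exists_index, forall_apply_eq_imp_iff]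
  refine forall_congr' fun k => ?_
  simp

/-- the properties of a locus avoiding all patterns -/
theorem good_of_patterns (hcn : c ≤ n) (a : Tuple d)
    (H : ∀ r < c, ∀ t : Fin n → Option (Fin r), ∃ V : ValuationSubring ℂ,
      ∀ x ∈ locus a, ¬ Pattern V t x) :
    (∀ W, IsComponent W (locus a) → dim W = ((n - c : ℕ) : WithBot ℕ∞) ∧ NoAtypical W) := by
  intro W hW
  have h1 : dim W ≤ ((n - c : ℕ) : WithBot ℕ∞) := dim_le_of_pattern hcn H hW.1 hW.2.1
  have h2 : ((n - c : ℕ) : WithBot ℕ∞) ≤ dim W := by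
    rw [locus_eq] at hW
    exact le_dim_component _ hW
  exact ⟨le_antisymm h1 h2, criterion hcn h2 fun r hr t => by
    obtain ⟨V, hV⟩ := H r hr t
    exact ⟨V, fun x hx => hV x (hW.2.1 hx)⟩⟩

end Pool.Agent.Hhelper14.ZP
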