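import Pool.Agent.Hhelper14.ZP.Alg

/-!
# Coordinates and generic points
-/

namespace Pool.Agent.Hhelper14.ZP

theorem mem_of_root {K : Type*} [Field K] (V : ValuationSubring K) {x : K} {p : Polynomial K}
    (hp : ∀ i, p.coeff i ∈ V) (hlc : V.valuation p.leadingCoeff = 1) (hx : p.eval x = 0) :
    x ∈ V := by
  by_contra hxV
  have hv : 1 < V.valuation x := by
    by_contra hcon
    exact hxV ((V.valuation_le_one_iff x).mp (not_lt.mp hcon))
  have h1 : p.leadingCoeff * x ^ p.natDegree =
      - ∑ i ∈ Finset.range p.natDegree, p.coeff i * x ^ i := by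
    rw [Polynomial.eval_eq_sum_range, Finset.sum_range_succ] at hx
    rw [Polynomial.leadingCoeff]
    linear_combination hx
  have h2 := congrArg V.valuation h1
  rw [map_mul, hlc, one_mul, map_pow, Valuation.map_neg] at h2
  have h3 : V.valuation (∑ i ∈ Finset.range p.natDegree, p.coeff i * x ^ i) <
      V.valuation x ^ p.natDegree := by
    apply Valuation.map_sum_lt
    · exact pow_ne_zero _ (zero_lt_one.trans hv).ne'
    · intro i hi
      rw [map_mul, map_pow]
      have h4 : V.valuation (p.coeff i) ≤ 1 := (V.valuation_le_one_iff _).mpr (hp i)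
      calc V.valuation (p.coeff i) * V.valuation x ^ i ≤ 1 * V.valuation x ^ i := by gcongr
        _ = V.valuation x ^ i := one_mul _
        _ < V.valuation x ^ p.natDegree := pow_lt_pow_right₀ hv (Finset.mem_range.mp hi)
  rw [h2] at h3
  exact lt_irrefl _ h3

open MvPolynomial

variable {n : ℕ}

/-- the coordinate functions on the quotient -/
noncomputable abbrev xbar (P : Ideal (MvPolynomial (Fin n) ℂ)) (i : Fin n) :
    MvPolynomial (Fin n) ℂ ⧸ P := Ideal.Quotient.mk P (X i)

theorem exists_basis (P : Ideal (MvPolynomial (Fin n) ℂ)) [hP : P.IsPrime] :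
    ∃ I : Finset (Fin n), IsTranscendenceBasis ℂ (fun i : I => xbar P i) := by
  classical
  have hadj : Algebra.adjoin ℂ (Set.range (xbar P)) = ⊤ := by
    have h1 : (Algebra.adjoin ℂ (Set.range (X : Fin n → MvPolynomial (Fin n) ℂ))).map
        (Ideal.Quotient.mkₐ ℂ P) = Algebra.adjoin ℂ (Set.range (xbar P)) := by
      rw [AlgHom.map_adjoin, ← Set.range_comp]
      rfl
    rw [← h1, MvPolynomial.adjoin_range_X, Algebra.map_top, AlgHom.range_eq_top]
    exact Ideal.Quotient.mkₐ_surjective ℂ P
  have halg : Algebra.IsAlgebraic (Algebra.adjoin ℂ (Set.range (xbar P)))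
      (MvPolynomial (Fin n) ℂ ⧸ P) := by
    rw [hadj]
    refine ⟨fun x => ?_⟩
    exact isAlgebraic_algebraMap (⟨x, Algebra.mem_top⟩ : (⊤ : Subalgebra ℂ (MvPolynomial (Fin n) ℂ ⧸ P)))
  obtain ⟨t, hts, ht⟩ := exists_isTranscendenceBasis_subset (R := ℂ) (Set.range (xbar P))
  have hch : ∀ y : t, ∃ i, xbar P i = y.1 := fun y => hts y.2
  choose s hs using hch
  have htfin : t.Finite := (Set.finite_range _).subset hts
  have : Fintype t := htfin.fintype
  have hsinj : Function.Injective s := fun y z hyz => Subtype.ext (by rw [← hs y, ← hs z, hyz])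
  refine ⟨Finset.univ.image s, ?_⟩
  let e : t ≃ (Finset.univ.image s : Finset (Fin n)) :=
    Equiv.ofBijective (fun y => ⟨s y, Finset.mem_image_of_mem _ (Finset.mem_univ y)⟩)
      ⟨fun y z h => hsinj (congrArg Subtype.val h), fun ⟨i, hi⟩ => by
        obtain ⟨y, -, hy⟩ := Finset.mem_image.mp hi
        exact ⟨y, Subtype.ext hy⟩⟩
  have h2 : (fun i : (Finset.univ.image s : Finset (Fin n)) => xbar P i) ∘ e = ((↑) : t → _) := by
    funext y
    exact hs y
  rw [← isTranscendenceBasis_equiv e, h2]
  exact ht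

/-- generic points: above a nonempty open set of values of a transcendence basis of coordinates
there are points of the variety -/
theorem exists_generic (P : Ideal (MvPolynomial (Fin n) ℂ)) [hP : P.IsPrime] {I : Finset (Fin n)}
    (hI : IsTranscendenceBasis ℂ (fun i : I => xbar P i)) :
    ∃ h : MvPolynomial I ℂ, h ≠ 0 ∧ ∀ a : I → ℂ, MvPolynomial.eval a h ≠ 0 →
      ∃ x ∈ zeroLocus ℂ P, ∀ i : I, x i = a i := by
  classical
  let B := MvPolynomial (Fin n) ℂ ⧸ P
  let φ : MvPolynomial I ℂ →ₐ[ℂ] B := aeval (fun i : I => xbar P i)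
  have hφ : Function.Injective φ := hI.1
  -- the algebraic relations
  have hrel : ∀ j : Fin n, ∃ p : Polynomial (MvPolynomial I ℂ), p ≠ 0 ∧
      p.eval₂ (φ : MvPolynomial I ℂ →+* B) (xbar P j) = 0 := by
    intro j
    have halg := hI.isAlgebraic
    obtain ⟨q, hq0, hq⟩ := halg.isAlgebraic (xbar P j)
    let e := hI.1.aevalEquiv.toRingEquiv
    refine ⟨q.map e.symm.toRingHom, ?_, ?_⟩
    · intro h0
      apply hq0
      have := congrArg (Polynomial.map e.toRingHom) h0
      rw [Polynomial.map_map, Polynomial.map_zero] at this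
      have h2 : e.toRingHom.comp e.symm.toRingHom = RingHom.id _ := by
        ext y
        simp
      rwa [h2, Polynomial.map_id] at this
    · rw [Polynomial.eval₂_map]
      have h2 : (φ : MvPolynomial I ℂ →+* B).comp e.symm.toRingHom = algebraMap _ B := by
        ext y
        have h3 := hI.1.algebraMap_aevalEquiv (e.symm y)
        have h4 : hI.1.aevalEquiv (e.symm y) = y := e.apply_symm_apply y
        rw [h4] at h3
        exact h3.symm
      rw [h2]
      exact hq
  choose p hp0 hp using hrel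
  refine ⟨∏ j, (p j).leadingCoeff, ?_, fun a ha => ?_⟩
  · exact Finset.prod_ne_zero_iff.mpr fun j _ => Polynomial.leadingCoeff_ne_zero.mpr (hp0 j)
  have ha' : ∀ j, MvPolynomial.eval a (p j).leadingCoeff ≠ 0 := by
    rw [map_prod] at ha
    exact fun j => Finset.prod_ne_zero_iff.mp ha j (Finset.mem_univ j)
  let K := FractionRing B
  let ψ : MvPolynomial I ℂ →+* K := (algebraMap B K).comp (φ : MvPolynomial I ℂ →+* B)
  have hψ : Function.Injective ψ := (IsFractionRing.injective B K).comp hφ
  let A : Subring K := ψ.range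
  let e : MvPolynomial I ℂ ≃+* A := RingEquiv.ofBijective ψ.rangeRestrict
    ⟨fun x y h => hψ (congrArg Subtype.val h), ψ.rangeRestrict_surjective⟩
  let 𝔞 : Ideal A := RingHom.ker ((MvPolynomial.eval a).comp (e.symm : A →+* MvPolynomial I ℂ))
  obtain ⟨V, hAV, hV⟩ := Ideal.image_subset_nonunits_valuationSubring 𝔞 (RingHom.ker_ne_top _)
  have hψV : ∀ f, ψ f ∈ V := fun f => hAV ⟨f, rfl⟩
  have hker : ∀ f, MvPolynomial.eval a f = 0 → V.valuation (ψ f) < 1 := by
    intro f hf
    have h1 : ψ f ∈ A.subtype '' 𝔞 := by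
      refine ⟨e f, ?_, rfl⟩
      change (MvPolynomial.eval a) (e.symm (e f)) = 0
      rw [RingEquiv.symm_apply_apply, hf]
    exact V.mem_nonunits_iff.mp (hV h1)
  have hC : ∀ c : ℂ, c ≠ 0 → V.valuation (ψ (C c)) = 1 := by
    intro c hc
    apply le_antisymm ((V.valuation_le_one_iff _).mpr (hψV _))
    have h1 : ψ (C c) * ψ (C c⁻¹) = 1 := by
      rw [← map_mul, ← C_mul, mul_inv_cancel₀ hc, C_1, map_one]
    have h2 := congrArg V.valuation h1
    rw [map_mul, map_one] at h2
    have h3 : V.valuation (ψ (C c⁻¹)) ≤ 1 := (V.valuation_le_one_iff _).mpr (hψV _)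
    calc (1 : _) = V.valuation (ψ (C c)) * V.valuation (ψ (C c⁻¹)) := h2.symm
      _ ≤ V.valuation (ψ (C c)) * 1 := by gcongr
      _ = _ := mul_one _
  have hunit : ∀ f, MvPolynomial.eval a f ≠ 0 → V.valuation (ψ f) = 1 := by
    intro f hf
    have h1 : ψ f = ψ (C (MvPolynomial.eval a f)) + ψ (f - C (MvPolynomial.eval a f)) := by
      rw [← map_add]; congr 1; ring
    have h2 : V.valuation (ψ (f - C (MvPolynomial.eval a f))) <
        V.valuation (ψ (C (MvPolynomial.eval a f))) := by
      rw [hC _ hf]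
      exact hker _ (by simp)
    rw [h1, Valuation.map_add_eq_of_lt_left _ h2, hC _ hf]
  have hxV : ∀ j, algebraMap B K (xbar P j) ∈ V := by
    intro j
    refine mem_of_root V (p := (p j).map ψ) (fun i => ?_) ?_ ?_
    · rw [Polynomial.coeff_map]; exact hψV _
    · rw [Polynomial.leadingCoeff_map_of_injective hψ]
      exact hunit _ (ha' j)
    · rw [Polynomial.eval_map, ← Polynomial.hom_eval₂, hp j, map_zero]
  have hall : ∀ f : MvPolynomial (Fin n) ℂ, algebraMap B K (Ideal.Quotient.mk P f) ∈ V := by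
    intro f
    induction f using MvPolynomial.induction_on with
    | C c =>
      have h1 := hψV (C c)
      have h2 : ψ (C c) = algebraMap B K (Ideal.Quotient.mk P (C c)) := by
        simp only [ψ, RingHom.comp_apply, φ]
        congr 1
        change aeval _ (C c) = _
        rw [aeval_C]
        rfl
      rwa [h2] at h1
    | add f g hf hg => rw [map_add, map_add]; exact V.add_mem _ _ hf hg
    | mul_X f i hf => rw [map_mul, map_mul]; exact V.mul_mem _ _ hf (hxV i)
  let ρ : MvPolynomial (Fin n) ℂ →+* V :=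
    ((algebraMap B K).comp (Ideal.Quotient.mk P)).codRestrict V.toSubring hall
  have hρ : ∀ f, ((ρ f : V) : K) = algebraMap B K (Ideal.Quotient.mk P f) := fun f => rfl
  let 𝔭 : Ideal (MvPolynomial (Fin n) ℂ) := (IsLocalRing.maximalIdeal V).comap ρ
  have h𝔭 : 𝔭.IsPrime := Ideal.IsPrime.comap _
  obtain ⟨M, hM, h𝔭M⟩ := Ideal.exists_le_maximal 𝔭 h𝔭.ne_top
  obtain ⟨x, rfl⟩ := isMaximal_iff_eq_vanishingIdeal_singleton.mp hM
  have hmem : ∀ f, V.valuation (algebraMap B K (Ideal.Quotient.mk P f)) < 1 →
      MvPolynomial.eval x f = 0 := by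
    intro f hf
    rw [← mem_max_iff]
    apply h𝔭M
    change ρ f ∈ IsLocalRing.maximalIdeal V
    rw [← ValuationSubring.coe_mem_nonunits_iff, hρ, V.mem_nonunits_iff]
    exact hf
  refine ⟨x, ?_, fun i => ?_⟩
  · rw [mem_zeroLocus_iff]
    intro f hf
    have := hmem f (by
      rw [Ideal.Quotient.eq_zero_iff_mem.mpr hf, map_zero, map_zero]
      exact zero_lt_one)
    simpa using this
  · have h1 := hker (X i - C (a i)) (by simp)
    have h2 : ψ (X i - C (a i)) = algebraMap B K (Ideal.Quotient.mk P (X (i : Fin n) - C (a i))) := by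
      simp only [ψ, RingHom.comp_apply, φ]
      congr 1
      change aeval _ (X i - C (a i)) = _
      rw [map_sub, aeval_X, aeval_C, map_sub]
      rfl
    rw [h2] at h1
    have h3 := hmem _ h1
    simp only [map_sub, eval_X, eval_C] at h3
    exact sub_eq_zero.mp h3

end Pool.Agent.Hhelper14.ZP
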