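import Pool.Agent.Hhelper14.ZP.Orbit

/-!
# Integrality: modular equations and singular moduli
-/

namespace Pool.Agent.Hhelper14.ZP

open UpperHalfPlane ModularForm ModularFormClass SlashInvariantFormClass MatrixGroups
  EisensteinSeries Function Metric Polynomial
open scoped Manifold

variable {N : ℕ}

/-- `f` has an integral expansion in `q_N` with pole order at most `K` and `K`-th leading
coefficient `u` -/
def HasQ (N K : ℕ) (u : ℂ) (f : ℍ → ℂ) : Prop :=
  ∃ F : ℂ → ℂ, Good OO F ∧ F 0 = u ∧ ∀ τ : ℍ, f τ * qN N τ ^ K = F (qN N τ)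

theorem HasQ.mul {K L : ℕ} {u v : ℂ} {f g : ℍ → ℂ} (hf : HasQ N K u f) (hg : HasQ N L v g) :
    HasQ N (K + L) (u * v) (fun τ => f τ * g τ) := by
  obtain ⟨F, hF, hF0, hFf⟩ := hf
  obtain ⟨G, hG, hG0, hGg⟩ := hg
  refine ⟨fun z => F z * G z, hF.mul hG, by simp only [hF0, hG0], fun τ => ?_⟩
  dsimp only
  rw [← hFf, ← hGg, pow_add]
  ring

theorem HasQ.add {K L : ℕ} {u v : ℂ} {f g : ℍ → ℂ} (hf : HasQ N K u f) (hg : HasQ N L v g) :
    ∃ w, HasQ N (K + L) w (fun τ => f τ + g τ) := by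
  obtain ⟨F, hF, hF0, hFf⟩ := hf
  obtain ⟨G, hG, hG0, hGg⟩ := hg
  refine ⟨_, fun z => F z * z ^ L + G z * z ^ K, (hF.mul (Good.id.pow L)).add
    (hG.mul (Good.id.pow K)), rfl, fun τ => ?_⟩
  dsimp only
  rw [← hFf, ← hGg, pow_add]
  ring

theorem HasQ.const {c : ℂ} (hc : c ∈ OO) : HasQ N 0 c (fun _ => c) :=
  ⟨fun _ => c, Good.const hc, rfl, fun τ => by simp⟩

theorem HasQ.prod {ι : Type*} (s : Finset ι) (f : ι → ℍ → ℂ) (u : ι → ℂ) (K : ι → ℕ)
    (h : ∀ i ∈ s, HasQ N (K i) (u i) (f i)) :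
    HasQ N (∑ i ∈ s, K i) (∏ i ∈ s, u i) (fun τ => ∏ i ∈ s, f i τ) := by
  classical
  induction s using Finset.induction_on with
  | empty => simpa using HasQ.const (N := N) OO.one_mem
  | insert a s ha ih =>
    simp only [Finset.sum_insert ha, Finset.prod_insert ha]
    exact (h a (Finset.mem_insert_self a s)).mul
      (ih fun i hi => h i (Finset.mem_insert_of_mem hi))

/-- the ring of holomorphic functions with integral `q_N`-expansions with finite poles -/
noncomputable def RR (N : ℕ) : Subring (ℍ → ℂ) where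
  carrier := {f | MDiff f ∧ ∃ K u, HasQ N K u f}
  mul_mem' := by
    rintro f g ⟨hf, K, u, hKu⟩ ⟨hg, L, v, hLv⟩
    exact ⟨hf.mul hg, _, _, hKu.mul hLv⟩
  one_mem' := ⟨mdifferentiable_const, 0, 1, HasQ.const OO.one_mem⟩
  add_mem' := by
    rintro f g ⟨hf, K, u, hKu⟩ ⟨hg, L, v, hLv⟩
    obtain ⟨w, hw⟩ := hKu.add hLv
    exact ⟨hf.add hg, _, w, hw⟩
  zero_mem' := ⟨mdifferentiable_const, 0, 0, HasQ.const OO.zero_mem⟩
  neg_mem' := by
    rintro f ⟨hf, K, u, hKu⟩
    refine ⟨hf.neg, K, -u, ?_⟩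
    obtain ⟨F, hF, hF0, hFf⟩ := hKu
    exact ⟨fun z => - F z, hF.neg, by simp [hF0], fun τ => by simp [← hFf]⟩

/-- units of the ring of algebraic integers, as complex numbers -/
def IsU (u : ℂ) : Prop := u ≠ 0 ∧ u ∈ OO ∧ u⁻¹ ∈ OO

theorem IsU.mul {u v : ℂ} (hu : IsU u) (hv : IsU v) : IsU (u * v) :=
  ⟨mul_ne_zero hu.1 hv.1, OO.mul_mem hu.2.1 hv.2.1, by
    rw [mul_inv]; exact OO.mul_mem hu.2.2 hv.2.2⟩

theorem IsU.neg {u : ℂ} (hu : IsU u) : IsU (-u) :=
  ⟨neg_ne_zero.mpr hu.1, OO.neg_mem hu.2.1, by rw [inv_neg]; exact OO.neg_mem hu.2.2⟩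

theorem IsU.inv {u : ℂ} (hu : IsU u) : IsU u⁻¹ :=
  ⟨inv_ne_zero hu.1, hu.2.2, by rw [inv_inv]; exact hu.2.1⟩

theorem IsU.one : IsU 1 := ⟨one_ne_zero, OO.one_mem, by rw [inv_one]; exact OO.one_mem⟩

theorem IsU.prod {ι : Type*} (s : Finset ι) (u : ι → ℂ) (h : ∀ i ∈ s, IsU (u i)) :
    IsU (∏ i ∈ s, u i) := by
  classical
  induction s using Finset.induction_on with
  | empty => simpa using IsU.one
  | insert a s ha ih =>
    rw [Finset.prod_insert ha]
    exact (h a (Finset.mem_insert_self a s)).mul (ih fun i hi => h i (Finset.mem_insert_of_mem hi))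

/-- shape of the representatives -/
theorem rep_shape (hN : 0 < N) {B : DD N} (hB : B ∈ FixedDetMatrices.reps (N : ℤ)) :
    ∃ (a d : ℕ) (b : ℤ), 0 < a ∧ 0 < d ∧ a * d = N ∧
      ∀ τ : ℍ, (act hN B τ : ℂ) = (a * τ + b) / d := by
  obtain ⟨h10, h00, -, -⟩ := hB
  have hdet : B.1 0 0 * B.1 1 1 = N := by
    have h := B.2
    rw [Matrix.det_fin_two, h10, mul_zero, sub_zero] at h
    exact h
  have h11 : 0 < B.1 1 1 := by
    by_contra hcon
    push Not at hcon
    have h1 : B.1 0 0 * B.1 1 1 ≤ 0 := mul_nonpos_of_nonneg_of_nonpos h00.le hcon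
    rw [hdet] at h1
    have : (0 : ℤ) < N := by exact_mod_cast hN
    omega
  refine ⟨(B.1 0 0).toNat, (B.1 1 1).toNat, B.1 0 1, by omega, by omega, ?_, fun τ => ?_⟩
  · zify
    rw [Int.toNat_of_nonneg h00.le, Int.toNat_of_nonneg h11.le, hdet]
  · rw [coe_act, h10]
    have e1 : (((B.1 0 0).toNat : ℕ) : ℂ) = ((B.1 0 0 : ℤ) : ℂ) := by
      have := Int.toNat_of_nonneg h00.le
      exact_mod_cast congrArg (fun x : ℤ => (x : ℂ)) this
    have e2 : (((B.1 1 1).toNat : ℕ) : ℂ) = ((B.1 1 1 : ℤ) : ℂ) := by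
      have := Int.toNat_of_nonneg h11.le
      exact_mod_cast congrArg (fun x : ℤ => (x : ℂ)) this
    rw [e1, e2]
    simp

/-- the `q_N`-parameter at `B τ` -/
theorem qParam_act (hN : 0 < N) {B : DD N} (hB : B ∈ FixedDetMatrices.reps (N : ℤ)) :
    ∃ (a d : ℕ) (c : ℂ), 0 < a ∧ 0 < d ∧ a * d = N ∧ IsU c ∧ ‖c‖ = 1 ∧
      ∀ τ : ℍ, Periodic.qParam 1 (act hN B τ : ℂ) = c * qN N τ ^ (a ^ 2) := by
  obtain ⟨a, d, b, ha, hd, had, hact⟩ := rep_shape hN hB
  have hd' : (d : ℂ) ≠ 0 := by exact_mod_cast hd.ne'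
  have ha' : (a : ℂ) ≠ 0 := by exact_mod_cast ha.ne'
  set ζ := Complex.exp (2 * Real.pi * Complex.I / d) with hζ
  have hζ1 : ζ ^ d = 1 := (exp_pow_eq_one_iff hd d).mpr dvd_rfl
  have hζ0 : ζ ≠ 0 := Complex.exp_ne_zero _
  have hζU : IsU ζ := by
    refine ⟨hζ0, zeta_mem hd, ?_⟩
    have : ζ⁻¹ = ζ ^ (d - 1) := by
      rw [inv_eq_iff_eq_inv]
      refine eq_inv_of_mul_eq_one_left ?_
      rw [← pow_succ', Nat.sub_add_cancel hd, hζ1]
    rw [this]
    exact OO.pow_mem (zeta_mem hd) _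
  have hpow : ∀ n : ℕ, IsU (ζ ^ n) := by
    intro n
    induction n with
    | zero => simpa using IsU.one
    | succ n ih => rw [pow_succ]; exact ih.mul hζU
  have hzpow : IsU (ζ ^ b) := by
    rcases b with n | n
    · simpa using hpow n
    · rw [zpow_negSucc]; exact (hpow _).inv
  refine ⟨a, d, ζ ^ b, ha, hd, had, hzpow, ?_, fun τ => ?_⟩
  · rw [norm_zpow, norm_zeta, one_zpow]
  · have hNc : (N : ℂ) = a * d := by rw [← had]; push_cast; ring
    rw [hact, hζ]
    simp only [qN, Periodic.qParam]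
    rw [← Complex.exp_int_mul, ← Complex.exp_nat_mul, ← Complex.exp_add]
    congr 1
    push_cast
    rw [hNc]
    field_simp
    ring

theorem rep_expansion (hN : 0 < N) {B : DD N} (hB : B ∈ FixedDetMatrices.reps (N : ℤ)) :
    ∃ (a d : ℕ) (c : ℂ), 0 < a ∧ 0 < d ∧ a * d = N ∧ IsU c ∧
      (∃ F, Good OO F ∧ F 0 = c ∧ ∀ τ : ℍ, jA hN B τ * qN N τ ^ (a ^ 2) = F (qN N τ)) := by
  obtain ⟨a, d, c, ha, hd, had, hc, hc1, hq⟩ := qParam_act hN hB
  obtain ⟨J, hJ, hJ0, hJτ⟩ := exists_J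
  refine ⟨a, d, c⁻¹, ha, hd, had, hc.inv, fun z => c⁻¹ * J (c * z ^ (a ^ 2)), ?_, ?_, fun τ => ?_⟩
  · have h1 : Good OO (fun z => J (c * z)) := hJ.comp_mul hc.2.1 hc1.le
    exact (h1.comp_pow (m := a ^ 2) (by positivity)).const_mul hc.2.2
  · simp [hJ0, ha.ne']
  · have h1 := hJτ (act hN B τ)
    rw [hq τ] at h1
    dsimp only
    rw [← h1, jA]
    have := hc.1
    field_simp

theorem jQ_mem (hN : 0 < N) (q : QQ N) : jQ hN q ∈ RR N := by
  induction q using Quotient.inductionOn' with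
  | h A =>
    obtain ⟨B, hB, γ, rfl⟩ := exists_rep hN A
    rw [jQ_mk, jA_smul]
    obtain ⟨a, d, c, -, -, -, -, F, hF, hF0, hFf⟩ := rep_expansion hN hB
    exact ⟨jA_mdiff hN B, a ^ 2, c, F, hF, hF0, hFf⟩

/-- invariant members of `RR N` are integral polynomials in `j` -/
theorem exists_poly_of_mem (hN : 0 < N) {f : ℍ → ℂ} (hf : f ∈ RR N)
    (hinv : ∀ (γ : SL(2, ℤ)) (τ : ℍ), f (γ • τ) = f τ) :
    ∃ P : Polynomial OO, ∀ τ : ℍ, f τ = P.eval₂ OO.subtype (jInv τ) := by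
  obtain ⟨hfd, K, u, F, hF, -, hFf⟩ := hf
  obtain ⟨P, -, -, hP⟩ := exists_poly hN K f F hfd hinv hF hFf
  exact ⟨P, hP⟩

/-- the characteristic polynomial of the correspondence, over the ring `RR N` -/
noncomputable def charP (hN : 0 < N) [Fintype (QQ N)] : Polynomial (RR N) :=
  ∏ q : QQ N, (X - C ⟨jQ hN q, jQ_mem hN q⟩)

/-- evaluation at a point -/
noncomputable def evalAt (N : ℕ) (τ : ℍ) : RR N →+* ℂ :=
  (Pi.evalRingHom (fun _ : ℍ => ℂ) τ).comp (RR N).subtype

theorem charP_map (hN : 0 < N) [Fintype (QQ N)] (τ : ℍ) :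
    (charP hN).map (evalAt N τ) = ∏ q : QQ N, (X - C (jQ hN q τ)) := by
  rw [charP, Polynomial.map_prod]
  refine Finset.prod_congr rfl fun q _ => ?_
  rw [Polynomial.map_sub, map_X, map_C]
  rfl

theorem charP_inv (hN : 0 < N) [Fintype (QQ N)] (γ : SL(2, ℤ)) (τ : ℍ) :
    (charP hN).map (evalAt N (γ • τ)) = (charP hN).map (evalAt N τ) := by
  rw [charP_map, charP_map]
  have h := Function.Bijective.prod_comp (rQ_bijective hN γ) (fun q => (X - C (jQ hN q τ)))
  rw [← h]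
  refine Finset.prod_congr rfl fun q _ => ?_
  rw [jQ_rQ]

theorem charP_coeff (hN : 0 < N) [Fintype (QQ N)] (k : ℕ) :
    ∃ P : Polynomial OO, ∀ τ : ℍ, evalAt N τ ((charP hN).coeff k) =
      P.eval₂ OO.subtype (jInv τ) := by
  refine exists_poly_of_mem hN ((charP hN).coeff k).2 fun γ τ => ?_
  have h := congrArg (fun p => p.coeff k) (charP_inv hN γ τ)
  simp only [coeff_map] at h
  exact h

/-- **Modular equation.** For an integral matrix `A` of positive determinant, `j (A τ)` is a root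
of a monic polynomial over `ℤ̄[j (τ)]`, uniformly in `τ`. -/
theorem modular_eq (hN : 0 < N) (A : DD N) :
    ∃ Φ : Polynomial (Polynomial OO), Φ.Monic ∧ ∀ τ : ℍ,
      (Φ.map (eval₂RingHom OO.subtype (jInv τ))).eval (jA hN A τ) = 0 := by
  have := finite_QQ hN
  have : Fintype (QQ N) := Fintype.ofFinite _
  choose P hP using charP_coeff hN
  set d := (charP hN).natDegree with hd
  have hmonic : (charP hN).Monic := monic_prod_of_monic _ _ fun q _ => monic_X_sub_C _
  let Φ : Polynomial (Polynomial OO) := X ^ d + ∑ k ∈ Finset.range d, C (P k) * X ^ k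
  refine ⟨Φ, ?_, fun τ => ?_⟩
  · refine monic_X_pow_add ?_
    rw [degree_lt_iff_coeff_zero]
    intro m hm
    rw [finsetSum_coeff]
    refine Finset.sum_eq_zero fun k hk => ?_
    rw [coeff_C_mul_X_pow, if_neg]
    have := Finset.mem_range.mp hk
    omega
  · have h1 : (Φ.map (eval₂RingHom OO.subtype (jInv τ))) = (charP hN).map (evalAt N τ) := by
      rw [hmonic.as_sum]
      simp only [Φ, Polynomial.map_add, Polynomial.map_pow, map_X, Polynomial.map_sum,
        Polynomial.map_mul, map_C]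
      congr 1
      refine Finset.sum_congr rfl fun k _ => ?_
      rw [hP k τ]
      rfl
    rw [h1, charP_map, eval_prod]
    refine Finset.prod_eq_zero (Finset.mem_univ (Quotient.mk'' A)) ?_
    rw [eval_sub, eval_X, eval_C, jQ_mk, sub_self]

/-- **Singular moduli are algebraic integers**: if `A τ = τ` for an integral matrix whose
determinant is positive and not a square, then `j (τ)` is an algebraic integer. -/
theorem jInv_mem_of_fixed (hN : 0 < N) (hsq : ∀ m : ℕ, m ^ 2 ≠ N) (A : DD N) (τ₀ : ℍ)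
    (hA : act hN A τ₀ = τ₀) : jInv τ₀ ∈ OO := by
  have := finite_QQ hN
  have : Fintype (QQ N) := Fintype.ofFinite _
  obtain ⟨J, hJ, hJ0, hJτ⟩ := exists_J
  -- leading terms
  have hlead : ∀ q : QQ N, ∃ K u, IsU u ∧ HasQ N K u (fun τ => jInv τ - jQ hN q τ) := by
    intro q
    induction q using Quotient.inductionOn' with
    | h A =>
      obtain ⟨B, hB, γ, rfl⟩ := exists_rep hN A
      rw [jQ_mk, jA_smul]
      obtain ⟨a, d, c, ha, hd, had, hc, F, hF, hF0, hFf⟩ := rep_expansion hN hB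
      rcases lt_trichotomy (a ^ 2) N with h | h | h
      · refine ⟨N, 1, IsU.one, fun z => J (z ^ N) - z ^ (N - a ^ 2) * F z,
          (hJ.comp_pow hN).sub ((Good.id.pow _).mul hF), ?_, fun τ => ?_⟩
        · simp only [zero_pow hN.ne', hJ0, zero_pow (Nat.sub_pos_of_lt h).ne', zero_mul, sub_zero]
        · dsimp only
          rw [← hFf, qN_pow hN, ← hJτ, sub_mul]
          congr 1
          have e : qN N τ ^ N = qN N τ ^ (N - a ^ 2) * qN N τ ^ (a ^ 2) := by
            rw [← pow_add, Nat.sub_add_cancel h.le]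
          rw [← qN_pow hN, e]
          ring
      · exact absurd h (hsq a)
      · refine ⟨a ^ 2, -c, hc.neg, fun z => z ^ (a ^ 2 - N) * J (z ^ N) - F z,
          ((Good.id.pow _).mul (hJ.comp_pow hN)).sub hF, ?_, fun τ => ?_⟩
        · simp only [zero_pow (Nat.sub_pos_of_lt h).ne', zero_mul, zero_sub, hF0]
        · dsimp only
          rw [← hFf, qN_pow hN, ← hJτ, sub_mul]
          congr 1
          have e : qN N τ ^ (a ^ 2) = qN N τ ^ (a ^ 2 - N) * qN N τ ^ N := by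
            rw [← pow_add, Nat.sub_add_cancel h.le]
          rw [← qN_pow hN, e]
          ring
  choose K u hu hKu using hlead
  have hprod := HasQ.prod Finset.univ (fun q τ => jInv τ - jQ hN q τ) u K fun q _ => hKu q
  obtain ⟨F, hF, hF0, hFf⟩ := hprod
  have hmd : MDiff (fun τ : ℍ => ∏ q : QQ N, (jInv τ - jQ hN q τ)) := by
    have h1 : ∀ s : Finset (QQ N), MDiff (fun τ : ℍ => ∏ q ∈ s, (jInv τ - jQ hN q τ)) := by
      classical
      intro s
      induction s using Finset.induction_on with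
      | empty => simpa using mdifferentiable_const
      | insert a s ha ih =>
        simp only [Finset.prod_insert ha]
        exact (jInv_mdiff.sub (jQ_mem hN a).1).mul ih
    exact h1 _
  have hinv : ∀ (γ : SL(2, ℤ)) (τ : ℍ), (∏ q : QQ N, (jInv (γ • τ) - jQ hN q (γ • τ))) =
      ∏ q : QQ N, (jInv τ - jQ hN q τ) := by
    intro γ τ
    have h := Function.Bijective.prod_comp (rQ_bijective hN γ) (fun q => (jInv τ - jQ hN q τ))
    rw [← h]
    refine Finset.prod_congr rfl fun q _ => ?_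
    rw [jQ_rQ, jInv_smul]
  obtain ⟨P, -, hlc, hP⟩ := exists_poly hN _ _ F hmd hinv hF hFf
  have hU : IsU (F 0) := by rw [hF0]; exact IsU.prod _ _ fun q _ => hu q
  have hlc' := hlc hU.1
  have hroot : P.eval₂ OO.subtype (jInv τ₀) = 0 := by
    rw [← hP]
    refine Finset.prod_eq_zero (Finset.mem_univ (Quotient.mk'' A)) ?_
    rw [jQ_mk, jA, hA, sub_self]
  -- make the polynomial monic
  let w : OO := ⟨(F 0)⁻¹, hU.2.2⟩
  have hw : w * P.leadingCoeff = 1 := by
    apply Subtype.ext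
    change (F 0)⁻¹ * (P.leadingCoeff : ℂ) = 1
    rw [hlc', inv_mul_cancel₀ hU.1]
  have hmon : (C w * P).Monic := by
    rw [Monic, leadingCoeff_mul, leadingCoeff_C, hw]
  have hint : IsIntegral OO (jInv τ₀) := by
    refine ⟨C w * P, hmon, ?_⟩
    rw [eval₂_mul]
    have : P.eval₂ (algebraMap OO ℂ) (jInv τ₀) = 0 := hroot
    rw [this, mul_zero]
  have : IsIntegral ℤ (jInv τ₀) := by
    have h1 : Algebra.IsIntegral ℤ OO := by
      refine ⟨fun x => ?_⟩
      have hx : IsIntegral ℤ (x : ℂ) := x.2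
      exact (isIntegral_algHom_iff (RingHom.toIntAlgHom OO.subtype)
        (fun a b h => Subtype.ext h)).mp hx
    exact isIntegral_trans _ hint
  exact this

end Pool.Agent.Hhelper14.ZP
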