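import Pool.Agent.Hhelper14.ZP.Defs
import Pool.Agent.Hhelper14.ZP.Disc

/-!
# The j-invariant: basic properties and integrality of its q-expansion
-/

namespace Pool.Agent.Hhelper14.ZP

open UpperHalfPlane ModularForm ModularFormClass SlashInvariantFormClass MatrixGroups
  EisensteinSeries Function Metric
open scoped ArithmeticFunction.sigma Manifold

/-- the ring of algebraic integers in `ℂ` -/
noncomputable def OO : Subring ℂ := (integralClosure ℤ ℂ).toSubring

theorem intCast_mem_OO (m : ℤ) : (m : ℂ) ∈ OO := by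
  have : (m : ℂ) = algebraMap ℤ ℂ m := by simp
  rw [this]
  exact (integralClosure ℤ ℂ).algebraMap_mem m

theorem natCast_mem_OO (m : ℕ) : (m : ℂ) ∈ OO := by
  exact_mod_cast intCast_mem_OO m

theorem E4_smul (γ : SL(2, ℤ)) (τ : ℍ) : E₄ (γ • τ) = denom γ τ ^ (4 : ℤ) * E₄ τ := by
  have : SlashInvariantFormClass (ModularForm 𝒮ℒ 4) (CongruenceSubgroup.Gamma 1) 4 :=
    CongruenceSubgroup.Gamma_one_coe_eq_SL ▸ inferInstance
  exact SlashInvariantForm.slash_action_eqn_SL'' E₄ (CongruenceSubgroup.mem_Gamma_one γ) τ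

theorem disc_smul (γ : SL(2, ℤ)) (τ : ℍ) :
    discriminant (γ • τ) = denom γ τ ^ (12 : ℤ) * discriminant τ := by
  have : SlashInvariantFormClass (CuspForm 𝒮ℒ 12) (CongruenceSubgroup.Gamma 1) 12 :=
    CongruenceSubgroup.Gamma_one_coe_eq_SL ▸ inferInstance
  exact SlashInvariantForm.slash_action_eqn_SL'' CuspForm.discriminant
    (CongruenceSubgroup.mem_Gamma_one γ) τ

theorem jInv_smul (γ : SL(2, ℤ)) (τ : ℍ) : jInv (γ • τ) = jInv τ := by
  have h1 : denom (γ : GL (Fin 2) ℝ) τ ≠ 0 := denom_ne_zero _ _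
  rw [jInv, jInv, E4_smul, disc_smul, mul_pow, ← zpow_natCast, ← zpow_mul]
  norm_num
  rw [mul_div_mul_left]
  exact pow_ne_zero _ h1

theorem jInv_mdiff : MDiff jInv := by
  have h1 : MDiff (E₄ : ℍ → ℂ) := ModularFormClass.holo E₄
  have h2 : MDiff (discriminant : ℍ → ℂ) := CuspForm.discriminant.holo'
  have h3 := ((h1.mul h1).mul h1).div h2 discriminant_ne_zero
  have h4 : jInv = fun τ => E₄ τ * E₄ τ * E₄ τ / discriminant τ := by
    funext τ
    rw [jInv]
    ring
  rw [h4]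
  exact h3

/-- every point of the punctured disc is a value of `q` -/
theorem exists_qParam {z : ℂ} (hz : ‖z‖ < 1) (hz0 : z ≠ 0) :
    ∃ τ : ℍ, Periodic.qParam 1 τ = z :=
  ⟨⟨Periodic.invQParam 1 z, Periodic.im_invQParam_pos_of_norm_lt_one one_pos hz hz0⟩,
    Periodic.qParam_right_inv one_ne_zero hz0⟩

theorem norm_qParam_lt (τ : ℍ) : ‖Periodic.qParam 1 τ‖ < 1 :=
  Periodic.norm_qParam_lt_one one_pos τ.im_pos

theorem hasSum_cusp {k : ℤ} (f : ModularForm 𝒮ℒ k) {z : ℂ} (hz : ‖z‖ < 1) :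
    HasSum (fun n => (qExpansion 1 f).coeff n * z ^ n) (cuspFunction 1 f z) := by
  have : Fact (IsCusp OnePoint.infty 𝒮ℒ) :=
    ⟨(𝒮ℒ).isCusp_of_mem_strictPeriods one_pos one_mem_strictPeriods_SL⟩
  exact hasSum_qExpansion_of_norm_lt one_pos (periodic_comp_ofComplex f one_mem_strictPeriods_SL)
    (holo f) (bdd_at_infty f) hz

theorem cusp_qParam {k : ℤ} (f : ModularForm 𝒮ℒ k) (τ : ℍ) :
    cuspFunction 1 f (Periodic.qParam 1 τ) = f τ :=
  SlashInvariantFormClass.eq_cuspFunction f τ one_mem_strictPeriods_SL one_ne_zero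

theorem twelve_dvd (n : ℕ) : (12 : ℤ) ∣ 5 * (σ 3 n : ℤ) + 7 * (σ 5 n : ℤ) := by
  have : (5 * (σ 3 n : ℤ) + 7 * (σ 5 n : ℤ)) = ∑ d ∈ n.divisors, (5 * (d : ℤ) ^ 3 + 7 * (d : ℤ) ^ 5) := by
    simp only [ArithmeticFunction.sigma_apply, Nat.cast_sum, Nat.cast_pow, Finset.mul_sum,
      Finset.sum_add_distrib]
  rw [this]
  refine Finset.dvd_sum fun d _ => ?_
  have h : ((5 * (d : ℤ) ^ 3 + 7 * (d : ℤ) ^ 5 : ℤ) : ZMod 12) = 0 := by
    push_cast
    generalize (d : ZMod 12) = x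
    revert x
    decide
  exact_mod_cast (ZMod.intCast_zmod_eq_zero_iff_dvd _ 12).mp h

theorem c4_coeff (n : ℕ) : (qExpansion 1 E₄).coeff n = if n = 0 then 1 else 240 * (σ 3 n : ℂ) := by
  have := E_qExpansion_coeff (k := 4) (by norm_num) ⟨2, rfl⟩ n
  rw [this, show bernoulli 4 = -1 / 30 by decide +kernel]
  norm_num

theorem c6_coeff (n : ℕ) :
    (qExpansion 1 E₆).coeff n = if n = 0 then 1 else -504 * (σ 5 n : ℂ) := by
  have := E_qExpansion_coeff (k := 6) (by norm_num) ⟨3, rfl⟩ n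
  rw [this, show bernoulli 6 = 1 / 42 by decide +kernel]
  norm_num

/-- the normalised series `∑ σ₃(n) zⁿ` -/
noncomputable def serA (z : ℂ) : ℂ := (cuspFunction 1 E₄ z - 1) / 240

/-- the normalised series `∑ σ₅(n) zⁿ` -/
noncomputable def serB (z : ℂ) : ℂ := (1 - cuspFunction 1 E₆ z) / 504

theorem hasSum_one (z : ℂ) : HasSum (fun n => (if n = 0 then (1 : ℂ) else 0) * z ^ n) (1 : ℂ) := by
  have := hasSum_single (f := fun n : ℕ => (if n = 0 then (1 : ℂ) else 0) * z ^ n) 0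
    (fun n hn => by simp [hn])
  simpa using this

theorem hasSum_serA {z : ℂ} (hz : ‖z‖ < 1) : HasSum (fun n => (σ 3 n : ℂ) * z ^ n) (serA z) := by
  have h1 := ((hasSum_cusp E₄ hz).sub (hasSum_one z)).div_const 240
  refine hasSum_of_eq h1 fun n => ?_
  rw [c4_coeff]
  rcases eq_or_ne n 0 with rfl | hn
  · simp
  · simp only [hn, if_false, zero_mul, sub_zero]
    ring

theorem hasSum_serB {z : ℂ} (hz : ‖z‖ < 1) : HasSum (fun n => (σ 5 n : ℂ) * z ^ n) (serB z) := by
  have h1 := ((hasSum_one z).sub (hasSum_cusp E₆ hz)).div_const 504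
  refine hasSum_of_eq h1 fun n => ?_
  rw [c6_coeff]
  rcases eq_or_ne n 0 with rfl | hn
  · simp
  · simp only [hn, if_false, zero_mul, zero_sub]
    ring

theorem good_serA : Good OO serA := ⟨fun n => (σ 3 n : ℂ), fun _ => natCast_mem_OO _,
  fun _ hz => hasSum_serA hz⟩

theorem good_serB : Good OO serB := ⟨fun n => (σ 5 n : ℂ), fun _ => natCast_mem_OO _,
  fun _ hz => hasSum_serB hz⟩

theorem good_mix : Good OO (fun z => (5 * serA z + 7 * serB z) / 12) := by
  refine ⟨fun n => (5 * (σ 3 n : ℂ) + 7 * (σ 5 n : ℂ)) / 12, fun n => ?_, fun z hz => ?_⟩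
  · obtain ⟨m, hm⟩ := twelve_dvd n
    have : (5 * (σ 3 n : ℂ) + 7 * (σ 5 n : ℂ)) / 12 = (m : ℂ) := by
      have h2 : (5 * (σ 3 n : ℂ) + 7 * (σ 5 n : ℂ)) = 12 * m := by exact_mod_cast hm
      rw [h2]
      field_simp
    dsimp only
    rw [this]
    exact intCast_mem_OO m
  · have h1 := (((hasSum_serA hz).mul_left 5).add ((hasSum_serB hz).mul_left 7)).div_const 12
    refine hasSum_of_eq h1 fun n => ?_
    ring

theorem serA_zero : serA 0 = 0 := by
  have h1 := hasSum_serA (z := 0) (by simp)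
  have h2 := hasSum_single (f := fun n : ℕ => (σ 3 n : ℂ) * (0 : ℂ) ^ n) 0
      (fun n hn => by simp [hn])
  have h3 := h1.unique h2
  simpa using h3

theorem serB_zero : serB 0 = 0 := by
  have h1 := hasSum_serB (z := 0) (by simp)
  have h2 := hasSum_single (f := fun n : ℕ => (σ 5 n : ℂ) * (0 : ℂ) ^ n) 0
      (fun n hn => by simp [hn])
  have h3 := h1.unique h2
  simpa using h3

theorem E4_eq (τ : ℍ) : E₄ τ = 1 + 240 * serA (Periodic.qParam 1 τ) := by
  rw [serA, cusp_qParam]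
  ring

theorem E6_eq (τ : ℍ) : E₆ τ = 1 - 504 * serB (Periodic.qParam 1 τ) := by
  rw [serB, cusp_qParam]
  ring

/-- the discriminant on the disc -/
noncomputable def serDelta (z : ℂ) : ℂ :=
  (5 * serA z + 7 * serB z) / 12 + 100 * serA z ^ 2 + 8000 * serA z ^ 3 - 147 * serB z ^ 2

theorem good_serDelta : Good OO serDelta := by
  have h100 : (100 : ℂ) ∈ OO := by exact_mod_cast natCast_mem_OO 100
  have h8000 : (8000 : ℂ) ∈ OO := by exact_mod_cast natCast_mem_OO 8000
  have h147 : (147 : ℂ) ∈ OO := by exact_mod_cast natCast_mem_OO 147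
  exact ((good_mix.add ((good_serA.pow 2).const_mul h100)).add
    ((good_serA.pow 3).const_mul h8000)).sub ((good_serB.pow 2).const_mul h147)

theorem disc_eq (τ : ℍ) : discriminant τ = serDelta (Periodic.qParam 1 τ) := by
  rw [discriminant_eq_E₄_cube_sub_E₆_sq, E4_eq, E6_eq, serDelta]
  ring

/-- **The q-expansion of `j` is integral**: `j = J(q)/q` with `J` given by a power series with
(algebraic) integer coefficients and `J(0) = 1`. -/
theorem exists_J : ∃ J : ℂ → ℂ, Good OO J ∧ J 0 = 1 ∧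
    ∀ τ : ℍ, jInv τ * Periodic.qParam 1 τ = J (Periodic.qParam 1 τ) := by
  obtain ⟨D, hD, hDz⟩ := good_serDelta.div_id (by simp [serDelta, serA_zero, serB_zero])
  have hDτ : ∀ τ : ℍ, discriminant τ = Periodic.qParam 1 τ * D (Periodic.qParam 1 τ) :=
    fun τ => by rw [disc_eq, hDz _ (norm_qParam_lt τ)]
  have hq : ∀ τ : ℍ, Periodic.qParam 1 (τ : ℂ) ≠ 0 := fun τ => Periodic.qParam_ne_zero _
  have hD0 : D 0 = 1 := by
    have h1 : Filter.Tendsto (fun τ : ℍ => D (Periodic.qParam 1 τ)) atImInfty (nhds (D 0)) :=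
      hD.continuousAt_zero.tendsto.comp (qParam_tendsto_atImInfty one_pos)
    refine tendsto_nhds_unique h1 (tendsto_atImInfty_tprod_one_sub_eta_q_pow.congr fun τ => ?_)
    have h2 := hDτ τ
    rw [discriminant_eq_q_prod] at h2
    exact mul_left_cancel₀ (hq τ) h2
  have hDne : ∀ z : ℂ, ‖z‖ < 1 → D z ≠ 0 := by
    intro z hz
    rcases eq_or_ne z 0 with rfl | hz0
    · rw [hD0]; exact one_ne_zero
    · obtain ⟨τ, hτ⟩ := exists_qParam hz hz0
      intro h
      apply discriminant_ne_zero τ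
      rw [hDτ, hτ, h, mul_zero]
  have h240 : (240 : ℂ) ∈ OO := by exact_mod_cast natCast_mem_OO 240
  have hE : Good OO (fun z => 1 + 240 * serA z) := (Good.const OO.one_mem).add
    (good_serA.const_mul h240)
  refine ⟨fun z => (1 + 240 * serA z) ^ 3 * (D z)⁻¹, (hE.pow 3).mul (hD.inv hD0 hDne), ?_, ?_⟩
  · simp [serA_zero, hD0]
  · intro τ
    rw [jInv, E4_eq, hDτ]
    have h1 := hq τ
    have h2 := hDne _ (norm_qParam_lt τ)
    field_simp

end Pool.Agent.Hhelper14.ZP
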