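import Pool.Agent.Hhelper14.ZP.JFun

/-!
# Level-one modular functions with integral `q`-expansions are integral polynomials in `j`
-/

namespace Pool.Agent.Hhelper14.ZP

open UpperHalfPlane ModularForm ModularFormClass SlashInvariantFormClass MatrixGroups
  EisensteinSeries Function Metric Polynomial
open scoped Manifold

theorem slash_zero_eq {f : ℍ → ℂ} (hinv : ∀ (γ : SL(2, ℤ)) (τ : ℍ), f (γ • τ) = f τ)
    (γ : SL(2, ℤ)) : f ∣[(0 : ℤ)] γ = f := by
  ext τ
  rw [SL_slash_apply, neg_zero, zpow_zero, mul_one]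
  exact hinv γ τ

theorem const_of_bounded {f : ℍ → ℂ} (hf : MDiff f)
    (hinv : ∀ (γ : SL(2, ℤ)) (τ : ℍ), f (γ • τ) = f τ) (hb : IsBoundedAtImInfty f) :
    ∃ c, ∀ τ, f τ = c := by
  let g : ModularForm 𝒮ℒ 0 :=
    { toFun := f
      slash_action_eq' := by
        rintro A ⟨γ, rfl⟩
        exact slash_zero_eq hinv γ
      holo' := hf
      bdd_at_cusps' := by
        intro c hc
        rw [Subgroup.IsArithmetic.isCusp_iff_isCusp_SL2Z] at hc
        rw [OnePoint.isBoundedAt_iff_forall_SL2Z hc]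
        intro γ _
        rw [slash_zero_eq hinv γ]
        exact hb }
  obtain ⟨c, hc⟩ := levelOne_weight_zero_const g
  exact ⟨c, fun τ => congrFun hc τ⟩

/-- the local parameter `exp (2 π i τ / N)` -/
noncomputable abbrev qN (N : ℕ) (τ : ℍ) : ℂ := Periodic.qParam (N : ℝ) (τ : ℂ)

theorem qN_ne_zero (N : ℕ) (τ : ℍ) : qN N τ ≠ 0 := Periodic.qParam_ne_zero _

theorem qN_pow {N : ℕ} (hN : 0 < N) (τ : ℍ) : qN N τ ^ N = Periodic.qParam 1 (τ : ℂ) := by
  have hN' : (N : ℂ) ≠ 0 := by exact_mod_cast hN.ne'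
  simp only [qN, Periodic.qParam]
  rw [← Complex.exp_nat_mul]
  congr 1
  push_cast
  field_simp

theorem norm_qN_lt {N : ℕ} (hN : 0 < N) (τ : ℍ) : ‖qN N τ‖ < 1 :=
  Periodic.norm_qParam_lt_one (by exact_mod_cast hN) τ.im_pos

theorem qN_tendsto {N : ℕ} (hN : 0 < N) : Filter.Tendsto (fun τ : ℍ => qN N τ) atImInfty (nhds 0) :=
  qParam_tendsto_atImInfty (by exact_mod_cast hN)

theorem qN_T {N : ℕ} (hN : 0 < N) (τ : ℍ) :
    qN N (ModularGroup.T • τ) = Complex.exp (2 * Real.pi * Complex.I / N) * qN N τ := by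
  have hN' : (N : ℂ) ≠ 0 := by exact_mod_cast hN.ne'
  simp only [qN, Periodic.qParam, modular_T_smul]
  rw [← Complex.exp_add]
  congr 1
  rw [coe_vadd]
  push_cast
  field_simp

theorem exp_pow_eq_one_iff {N : ℕ} (hN : 0 < N) (k : ℕ) :
    Complex.exp (2 * Real.pi * Complex.I / N) ^ k = 1 ↔ N ∣ k :=
  (Complex.isPrimitiveRoot_exp N hN.ne').pow_eq_one_iff_dvd k

theorem norm_zeta (N : ℕ) : ‖Complex.exp (2 * Real.pi * Complex.I / N)‖ = 1 := by
  rw [Complex.norm_exp]
  simp [Complex.div_re, Complex.mul_re, Complex.mul_im]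

theorem zeta_mem {N : ℕ} (hN : 0 < N) : Complex.exp (2 * Real.pi * Complex.I / N) ∈ OO := by
  change IsIntegral ℤ _
  refine IsIntegral.of_pow hN ?_
  rw [(exp_pow_eq_one_iff hN N).mpr dvd_rfl]
  exact isIntegral_one

/-- **Integral q-expansion principle.** -/
theorem exists_poly {N : ℕ} (hN : 0 < N) : ∀ (K : ℕ) (f : ℍ → ℂ) (F : ℂ → ℂ), MDiff f →
    (∀ (γ : SL(2, ℤ)) (τ : ℍ), f (γ • τ) = f τ) → Good OO F →
    (∀ τ : ℍ, f τ * qN N τ ^ K = F (qN N τ)) →
    ∃ P : Polynomial OO, N * P.natDegree ≤ K ∧ (F 0 ≠ 0 → (P.leadingCoeff : ℂ) = F 0) ∧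
      ∀ τ : ℍ, f τ = P.eval₂ OO.subtype (jInv τ) := by
  obtain ⟨J, hJ, hJ0, hJτ⟩ := exists_J
  intro K
  induction K with
  | zero =>
    intro f F hf hinv hF hfF
    have hfF' : ∀ τ, F (qN N τ) = f τ := fun τ => by rw [← hfF τ, pow_zero, mul_one]
    have hlim : Filter.Tendsto f atImInfty (nhds (F 0)) :=
      (hF.continuousAt_zero.tendsto.comp (qN_tendsto hN)).congr hfF'
    obtain ⟨c, hc⟩ := const_of_bounded hf hinv (hlim.isBigO_one ℝ)
    have hc0 : c = F 0 := by
      refine tendsto_nhds_unique ?_ hlim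
      exact (tendsto_const_nhds (x := c)).congr fun τ => (hc τ).symm
    refine ⟨C ⟨F 0, hF.zero_mem⟩, by simp, fun _ => by simp, fun τ => ?_⟩
    rw [hc, hc0]
    simp
  | succ K ih =>
    intro f F hf hinv hF hfF
    by_cases hu : F 0 = 0
    · obtain ⟨G, hG, hFG⟩ := hF.div_id hu
      obtain ⟨P, hP1, -, hP3⟩ := ih f G hf hinv hG fun τ => by
        have h1 := hfF τ
        rw [hFG _ (norm_qN_lt hN τ), pow_succ, ← mul_assoc, mul_comm (qN N τ)] at h1
        exact mul_right_cancel₀ (qN_ne_zero N τ) h1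
      exact ⟨P, by omega, fun h => absurd hu h, hP3⟩
    · -- `N ∣ K + 1`
      have hdvd : N ∣ K + 1 := by
        rw [← exp_pow_eq_one_iff hN]
        set ζ := Complex.exp (2 * Real.pi * Complex.I / N) with hζ
        have h1 : ∀ τ : ℍ, ζ ^ (K + 1) * F (qN N τ) = F (ζ * qN N τ) := by
          intro τ
          rw [← qN_T hN, ← hfF, ← hfF, qN_T hN, hinv, mul_pow]
          ring
        have h2 : Filter.Tendsto (fun τ : ℍ => ζ ^ (K + 1) * F (qN N τ)) atImInfty
            (nhds (ζ ^ (K + 1) * F 0)) :=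
          (hF.continuousAt_zero.tendsto.comp (qN_tendsto hN)).const_mul _
        have h3 : Filter.Tendsto (fun τ : ℍ => F (ζ * qN N τ)) atImInfty (nhds (F 0)) := by
          have h4 := (qN_tendsto hN).const_mul ζ
          rw [mul_zero] at h4
          exact hF.continuousAt_zero.tendsto.comp h4
        have h5 := tendsto_nhds_unique h2 (h3.congr fun τ => (h1 τ).symm)
        exact mul_right_cancel₀ hu (by rw [h5, one_mul])
      obtain ⟨m, hm⟩ := hdvd
      have hm0 : 0 < m := by
        rcases Nat.eq_zero_or_pos m with rfl | h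
        · omega
        · exact h
      set u : OO := ⟨F 0, hF.zero_mem⟩ with hu'
      have hG : Good OO (fun z => F z - F 0 * J (z ^ N) ^ m) :=
        hF.sub (((hJ.comp_pow hN).pow m).const_mul hF.zero_mem)
      obtain ⟨G, hG1, hG2⟩ := hG.div_id (by simp [hJ0, hN.ne'])
      obtain ⟨P, hP1, -, hP3⟩ := ih (fun τ => f τ - F 0 * jInv τ ^ m) G
        (by
          have h1 : MDiff (fun τ => jInv τ ^ m) := by
            have := jInv_mdiff.pow m
            exact this
          exact hf.sub (h1.const_smul (F 0)))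
        (fun γ τ => by simp only [hinv, jInv_smul]) hG1 (fun τ => by
          have h1 := hG2 _ (norm_qN_lt hN τ)
          have h2 : (f τ - F 0 * jInv τ ^ m) * qN N τ ^ (K + 1) = qN N τ * G (qN N τ) := by
            rw [← h1, sub_mul, hfF, hm, qN_pow hN, ← hJτ, mul_pow, ← qN_pow hN, ← pow_mul]
            ring
          rw [pow_succ, ← mul_assoc, mul_comm (qN N τ)] at h2
          exact mul_right_cancel₀ (qN_ne_zero N τ) h2)
      have hdeg : P.natDegree < m := by
        by_contra hcon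
        push Not at hcon
        have : N * m ≤ N * P.natDegree := Nat.mul_le_mul_left N hcon
        omega
      have hune : u ≠ 0 := fun h => hu (by
        have := congrArg (fun x : OO => (x : ℂ)) h
        simpa [hu'] using this)
      have hdeg2 : (C u * X ^ m : Polynomial OO).natDegree = m := natDegree_C_mul_X_pow m u hune
      refine ⟨P + C u * X ^ m, ?_, fun _ => ?_, fun τ => ?_⟩
      · have h1 : (P + C u * X ^ m).natDegree ≤ m :=
          (natDegree_add_le _ _).trans (max_le hdeg.le hdeg2.le)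
        rw [hm]
        exact Nat.mul_le_mul_left N h1
      · rw [leadingCoeff_add_of_degree_lt]
        · rw [leadingCoeff_C_mul_X_pow]
        · rw [degree_eq_natDegree (p := C u * X ^ m) (by
            intro h; rw [h] at hdeg2; simp at hdeg2; omega), hdeg2]
          exact degree_le_natDegree.trans_lt (by exact_mod_cast hdeg)
      · rw [eval₂_add, ← hP3 τ, eval₂_mul, eval₂_C, eval₂_pow, eval₂_X]
        simp [hu']

end Pool.Agent.Hhelper14.ZP
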