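import Pool.Agent.Hhelper14.ZP.Family

/-!
# Nonemptiness of the loci, by a `p`-adic fixed point argument
-/

namespace Pool.Agent.Hhelper14.ZP

open MvPolynomial
open scoped TensorProduct

/-- polynomials with `p`-adic integer coefficients are 1-Lipschitz -/
theorem lipschitz {p : ℕ} [Fact p.Prime] {σ : Type*} [Fintype σ] (F : MvPolynomial σ ℤ_[p])
    (y z : σ → ℤ_[p]) : ‖MvPolynomial.eval y F - MvPolynomial.eval z F‖ ≤ ‖y - z‖ := by
  induction F using MvPolynomial.induction_on with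
  | C a => simp
  | add f g hf hg =>
    rw [map_add, map_add, add_sub_add_comm]
    exact (PadicInt.nonarchimedean _ _).trans (max_le hf hg)
  | mul_X f i hf =>
    rw [map_mul, map_mul, eval_X, eval_X]
    have h1 : MvPolynomial.eval y f * y i - MvPolynomial.eval z f * z i =
        (MvPolynomial.eval y f - MvPolynomial.eval z f) * y i +
          MvPolynomial.eval z f * (y i - z i) := by ring
    rw [h1]
    refine (PadicInt.nonarchimedean _ _).trans (max_le ?_ ?_)
    · rw [norm_mul]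
      exact (mul_le_of_le_one_right (norm_nonneg _) (PadicInt.norm_le_one _)).trans hf
    · rw [norm_mul]
      refine (mul_le_of_le_one_left (norm_nonneg _) (PadicInt.norm_le_one _)).trans ?_
      exact norm_le_pi_norm (y - z) i

variable {c n : ℕ} {d : Fin c → Fin n → ℕ}

/-- the integral polynomial -/
noncomputable def polyZ (a : Tuple d) (k : Fin c) : MvPolynomial (Fin n) ℤ :=
  ∑ α : ((i : Fin n) → Fin (d k i + 1)), C (a k α) * ∏ i, X i ^ (α i : ℕ)

theorem map_polyZ (a : Tuple d) (k : Fin c) :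
    MvPolynomial.map (Int.castRingHom ℂ) (polyZ a k) = poly a k := by
  simp [polyZ, poly, map_sum, map_mul, map_prod]

/-- the exponent of the variable `x_k` -/
def unitExp (hcn : c ≤ n) (d : Fin c → Fin n → ℕ) (k : Fin c) : (i : Fin n) → Fin (d k i + 1) :=
  fun i => if i = Fin.castLE hcn k then 1 else 0

theorem exists_rem (hcn : c ≤ n) (hd : ∀ k i, 1 ≤ d k i) {p : ℕ} (a : Tuple d)
    (ha : ∀ k α, a k α ≡ (if α = unitExp hcn d k then 1 else 0) [ZMOD p]) (k : Fin c) :
    ∃ B : MvPolynomial (Fin n) ℤ, polyZ a k = X (Fin.castLE hcn k) + C (p : ℤ) * B := by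
  classical
  have h1 : ∀ α, ∃ b : ℤ, a k α = (if α = unitExp hcn d k then 1 else 0) + p * b := by
    intro α
    obtain ⟨b, hb⟩ := (Int.modEq_iff_dvd.mp (ha k α).symm)
    exact ⟨b, by linarith⟩
  choose b hb using h1
  refine ⟨∑ α : ((i : Fin n) → Fin (d k i + 1)), C (b α) * ∏ i, X i ^ (α i : ℕ), ?_⟩
  have h2 : (∏ i, X i ^ ((unitExp hcn d k i : Fin _) : ℕ) : MvPolynomial (Fin n) ℤ) =
      X (Fin.castLE hcn k) := by
    rw [Finset.prod_eq_single (Fin.castLE hcn k)]
    · have : ((unitExp hcn d k (Fin.castLE hcn k) : Fin _) : ℕ) = 1 := by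
        rw [unitExp, if_pos rfl, Fin.val_one']
        exact Nat.mod_eq_of_lt (by have := hd k (Fin.castLE hcn k); omega)
      rw [this, pow_one]
    · intro i _ hi
      rw [unitExp, if_neg hi]
      simp
    · intro h
      exact absurd (Finset.mem_univ _) h
  rw [polyZ, ← h2, Finset.mul_sum]
  have h3 : (∏ i, X i ^ ((unitExp hcn d k i : Fin _) : ℕ) : MvPolynomial (Fin n) ℤ) =
      ∑ α : ((i : Fin n) → Fin (d k i + 1)), C (if α = unitExp hcn d k then 1 else 0) *
        ∏ i, X i ^ (α i : ℕ) := by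
    rw [Finset.sum_eq_single (unitExp hcn d k)]
    · simp
    · intro α _ hα
      simp [hα]
    · intro h
      exact absurd (Finset.mem_univ _) h
  rw [h3, ← Finset.sum_add_distrib]
  refine Finset.sum_congr rfl fun α _ => ?_
  rw [hb α, C_add, C_mul]
  ring

/-- a `p`-adic solution -/
theorem exists_padic (hcn : c ≤ n) (hd : ∀ k i, 1 ≤ d k i) {p : ℕ} [hp : Fact p.Prime]
    (a : Tuple d)
    (ha : ∀ k α, a k α ≡ (if α = unitExp hcn d k then 1 else 0) [ZMOD p]) :
    ∃ y : Fin n → ℤ_[p], ∀ k, MvPolynomial.eval₂ (Int.castRingHom ℤ_[p]) y (polyZ a k) = 0 := by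
  classical
  choose B hB using exists_rem hcn hd a ha
  let ext : (Fin c → ℤ_[p]) → (Fin n → ℤ_[p]) := fun x i => if h : (i : ℕ) < c then x ⟨i, h⟩ else 0
  have hext : ∀ x y, ‖ext x - ext y‖ ≤ ‖x - y‖ := by
    intro x y
    rw [pi_norm_le_iff_of_nonneg (norm_nonneg _)]
    intro i
    simp only [ext, Pi.sub_apply]
    split_ifs with h
    · exact norm_le_pi_norm (x - y) ⟨i, h⟩
    · simp
  let Φ : (Fin c → ℤ_[p]) → (Fin c → ℤ_[p]) := fun x k =>
    - ((p : ℤ_[p]) * MvPolynomial.eval (ext x) (MvPolynomial.map (Int.castRingHom ℤ_[p]) (B k)))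
  have hΦ : ContractingWith (1 / 2 : NNReal) Φ := by
    refine ⟨by norm_num [← NNReal.coe_lt_coe], LipschitzWith.of_dist_le_mul fun x y => ?_⟩
    rw [dist_eq_norm, dist_eq_norm, pi_norm_le_iff_of_nonneg (by positivity)]
    intro k
    have h1 : (Φ x - Φ y) k = (p : ℤ_[p]) *
        (MvPolynomial.eval (ext y) (MvPolynomial.map (Int.castRingHom ℤ_[p]) (B k)) -
          MvPolynomial.eval (ext x) (MvPolynomial.map (Int.castRingHom ℤ_[p]) (B k))) := by
      simp only [Φ, Pi.sub_apply]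
      ring
    rw [h1, norm_mul, PadicInt.norm_p]
    have h2 := (lipschitz (MvPolynomial.map (Int.castRingHom ℤ_[p]) (B k)) (ext y) (ext x)).trans
      (hext y x)
    rw [norm_sub_rev] at h2
    have h3 : ((p : ℝ))⁻¹ ≤ 1 / 2 := by
      have : (2 : ℝ) ≤ p := by exact_mod_cast hp.out.two_le
      rw [one_div]
      gcongr
    rw [norm_sub_rev (MvPolynomial.eval (ext y) _)]
    rw [norm_sub_rev y x] at h2
    calc ((p : ℝ))⁻¹ * _ ≤ 1 / 2 * ‖x - y‖ := by gcongr
      _ = _ := by simp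
  obtain ⟨x, hx⟩ : ∃ x, Φ x = x := ⟨hΦ.fixedPoint Φ, hΦ.fixedPoint_isFixedPt⟩
  refine ⟨ext x, fun k => ?_⟩
  have h1 := congrFun hx k
  rw [hB k, eval₂_add, eval₂_X, eval₂_mul, eval₂_C]
  have h2 : ext x (Fin.castLE hcn k) = x k := by
    simp only [ext]
    rw [dif_pos (by simp)]
    rfl
  rw [h2, ← MvPolynomial.eval_map]
  simp only [Φ] at h1
  rw [← h1]
  simp

theorem locus_nonempty (hcn : c ≤ n) (hd : ∀ k i, 1 ≤ d k i) {p : ℕ} (hp : p.Prime)
    (a : Tuple d)
    (ha : ∀ k α, a k α ≡ (if α = unitExp hcn d k then 1 else 0) [ZMOD p]) :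
    (locus a).Nonempty := by
  have : Fact p.Prime := ⟨hp⟩
  obtain ⟨y, hy⟩ := exists_padic hcn hd a ha
  by_contra hcon
  rw [Set.not_nonempty_iff_eq_empty, locus_eq] at hcon
  have h1 : (Ideal.span (Set.range (poly a))).radical = ⊤ := by
    rw [← vanishingIdeal_zeroLocus_eq_radical (K := ℂ), hcon, vanishingIdeal_empty]
  rw [Ideal.radical_eq_top] at h1
  let ev : MvPolynomial (Fin n) ℂ →+* ℂ ⊗[ℚ] ℚ_[p] :=
    (aeval (fun i => (1 : ℂ) ⊗ₜ[ℚ] (y i : ℚ_[p])) : MvPolynomial (Fin n) ℂ →ₐ[ℂ] _).toRingHom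
  have h2 : ∀ k, ev (poly a k) = 0 := by
    intro k
    have h3 : ev.comp (MvPolynomial.map (Int.castRingHom ℂ)) =
        ((Algebra.TensorProduct.includeRight : ℚ_[p] →ₐ[ℚ] ℂ ⊗[ℚ] ℚ_[p]).toRingHom).comp
          ((PadicInt.Coe.ringHom).comp (eval₂Hom (Int.castRingHom ℤ_[p]) y)) := by
      apply MvPolynomial.ringHom_ext
      · intro r
        simp
      · intro i
        simp only [ev, RingHom.comp_apply, map_X, AlgHom.toRingHom_eq_coe, RingHom.coe_coe,
          aeval_X, coe_eval₂Hom, eval₂_X, Algebra.TensorProduct.includeRight_apply]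
        rfl
    have h4 := congrArg (fun f : MvPolynomial (Fin n) ℤ →+* ℂ ⊗[ℚ] ℚ_[p] => f (polyZ a k)) h3
    simp only [RingHom.comp_apply, map_polyZ, coe_eval₂Hom, hy k, map_zero] at h4
    exact h4
  have h3 : Ideal.span (Set.range (poly a)) ≤ RingHom.ker ev := by
    rw [Ideal.span_le]
    rintro _ ⟨k, rfl⟩
    exact h2 k
  rw [h1, top_le_iff] at h3
  exact RingHom.ker_ne_top ev h3

end Pool.Agent.Hhelper14.ZP
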