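import Pool.Agent.Hhelper14.ZP.Level

/-!
# The modular equations: `j (A τ)` is integral over `ℤ̄[j (τ)]`
-/

namespace Pool.Agent.Hhelper14.ZP

open UpperHalfPlane ModularForm ModularFormClass SlashInvariantFormClass MatrixGroups
  EisensteinSeries Function Metric Polynomial
open scoped Manifold

/-- integral matrices of determinant `N` -/
abbrev DD (N : ℤ) := FixedDetMatrix (Fin 2) ℤ N

variable {N : ℕ}

theorem det_real (A : DD N) : (A.1.map (Int.cast : ℤ → ℝ)).det = (N : ℝ) := by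
  have h := A.2
  have h2 := congrArg (fun x : ℤ => (x : ℝ)) h
  simp only [Int.cast_natCast] at h2
  rw [← h2]
  exact (Int.castRingHom ℝ).map_det A.1 |>.symm

/-- the matrix as an element of `GL₂(ℝ)` -/
noncomputable def toGL (hN : 0 < N) (A : DD N) : GL (Fin 2) ℝ :=
  Matrix.GeneralLinearGroup.mkOfDetNeZero (A.1.map (Int.cast : ℤ → ℝ)) (by
    rw [det_real]; exact_mod_cast hN.ne')

theorem toGL_val (hN : 0 < N) (A : DD N) :
    ((toGL hN A : GL (Fin 2) ℝ) : Matrix (Fin 2) (Fin 2) ℝ) = A.1.map (Int.cast : ℤ → ℝ) := rfl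

theorem toGL_det (hN : 0 < N) (A : DD N) : 0 < (toGL hN A).det.val := by
  have : (toGL hN A).det.val = (A.1.map (Int.cast : ℤ → ℝ)).det := rfl
  rw [this, det_real]
  exact_mod_cast hN

/-- the Moebius action of an integral matrix of positive determinant -/
noncomputable def act (hN : 0 < N) (A : DD N) (τ : ℍ) : ℍ := toGL hN A • τ

theorem coe_act (hN : 0 < N) (A : DD N) (τ : ℍ) :
    (act hN A τ : ℂ) = (A.1 0 0 * τ + A.1 0 1) / (A.1 1 0 * τ + A.1 1 1) := by
  rw [act, coe_smul_of_det_pos (toGL_det hN A)]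
  simp [num, denom, toGL_val]

theorem act_smul (hN : 0 < N) (γ : SL(2, ℤ)) (A : DD N) (τ : ℍ) :
    act hN (γ • A) τ = γ • act hN A τ := by
  have h : toGL hN (γ • A) = (γ : GL (Fin 2) ℝ) * toGL hN A := by
    ext i j
    simp [toGL_val, FixedDetMatrices.smul_coe, Matrix.mul_apply]
  rw [act, h, mul_smul]
  rfl

/-- right multiplication -/
def rmul (A : DD N) (γ : SL(2, ℤ)) : DD N :=
  ⟨A.1 * γ.1, by rw [Matrix.det_mul, A.2, γ.2, mul_one]⟩

theorem rmul_val (A : DD N) (γ : SL(2, ℤ)) : (rmul A γ).1 = A.1 * γ.1 := rfl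

theorem act_rmul (hN : 0 < N) (γ : SL(2, ℤ)) (A : DD N) (τ : ℍ) :
    act hN (rmul A γ) τ = act hN A (γ • τ) := by
  have h : toGL hN (rmul A γ) = toGL hN A * (γ : GL (Fin 2) ℝ) := by
    ext i j
    simp [toGL_val, rmul_val, Matrix.mul_apply]
  rw [act, h, mul_smul]
  rfl

/-- the function `τ ↦ j (A τ)` -/
noncomputable def jA (hN : 0 < N) (A : DD N) (τ : ℍ) : ℂ := jInv (act hN A τ)

theorem jA_smul (hN : 0 < N) (γ : SL(2, ℤ)) (A : DD N) : jA hN (γ • A) = jA hN A := by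
  funext τ
  rw [jA, act_smul, jInv_smul]
  rfl

theorem jA_rmul (hN : 0 < N) (γ : SL(2, ℤ)) (A : DD N) (τ : ℍ) :
    jA hN (rmul A γ) τ = jA hN A (γ • τ) := by
  rw [jA, act_rmul]
  rfl

theorem jA_mdiff (hN : 0 < N) (A : DD N) : MDiff (jA hN A) :=
  jInv_mdiff.comp (mdifferentiable_smul (toGL_det hN A))

/-- reduction to representatives -/
theorem exists_rep (hN : 0 < N) (A : DD N) :
    ∃ B ∈ FixedDetMatrices.reps (N : ℤ), ∃ γ : SL(2, ℤ), A = γ • B := by
  have hm : (N : ℤ) ≠ 0 := by exact_mod_cast hN.ne'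
  induction A using (FixedDetMatrices.induction_on hm) with
  | h0 A a1 a2 a3 a4 => exact ⟨A, ⟨a1, a2, a3, a4⟩, 1, by simp⟩
  | hS B hB =>
    obtain ⟨B', hB', γ, rfl⟩ := hB
    exact ⟨B', hB', ModularGroup.S * γ, by rw [mul_smul]⟩
  | hT B hB =>
    obtain ⟨B', hB', γ, rfl⟩ := hB
    exact ⟨B', hB', ModularGroup.T * γ, by rw [mul_smul]⟩

/-- the set of classes `SL₂(ℤ) \ M_N` -/
abbrev QQ (N : ℕ) := MulAction.orbitRel.Quotient SL(2, ℤ) (DD N)

theorem finite_QQ (hN : 0 < N) : Finite (QQ N) := by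
  have : Function.Surjective (fun B : FixedDetMatrices.reps (N : ℤ) =>
      (Quotient.mk'' B.1 : QQ N)) := by
    intro q
    induction q using Quotient.inductionOn' with
    | h A =>
      obtain ⟨B, hB, γ, rfl⟩ := exists_rep hN A
      refine ⟨⟨B, hB⟩, ?_⟩
      exact Quotient.sound' ⟨γ⁻¹, by simp⟩
  exact Finite.of_surjective _ this

/-- the function attached to a class -/
noncomputable def jQ (hN : 0 < N) (q : QQ N) : ℍ → ℂ :=
  Quotient.liftOn' q (jA hN) (by
    rintro A B ⟨γ, rfl⟩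
    exact jA_smul hN γ B)

theorem jQ_mk (hN : 0 < N) (A : DD N) : jQ hN (Quotient.mk'' A) = jA hN A := rfl

/-- the right action on classes -/
def rQ (γ : SL(2, ℤ)) (q : QQ N) : QQ N :=
  Quotient.liftOn' q (fun A => (Quotient.mk'' (rmul A γ) : QQ N)) (by
    rintro A B ⟨δ, rfl⟩
    refine Quotient.sound' ⟨δ, ?_⟩
    apply Subtype.ext
    change δ.1 * (rmul B γ).1 = (rmul (δ • B) γ).1
    rw [rmul_val, rmul_val, FixedDetMatrices.smul_coe, mul_assoc])

theorem jQ_rQ (hN : 0 < N) (γ : SL(2, ℤ)) (q : QQ N) (τ : ℍ) :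
    jQ hN (rQ γ q) τ = jQ hN q (γ • τ) := by
  induction q using Quotient.inductionOn' with
  | h A => exact jA_rmul hN γ A τ

theorem rQ_bijective (hN : 0 < N) (γ : SL(2, ℤ)) : Function.Bijective (rQ γ : QQ N → QQ N) := by
  have := finite_QQ hN
  have h : ∀ (δ : SL(2, ℤ)) (q : QQ N), rQ δ⁻¹ (rQ δ q) = q := by
    intro δ q
    induction q using Quotient.inductionOn' with
    | h A =>
      refine congrArg _ (Subtype.ext ?_)
      simp only [rmul, mul_assoc]
      rw [← Matrix.SpecialLinearGroup.coe_mul]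
      simp
  refine ⟨fun x y hxy => ?_, fun y => ⟨rQ γ⁻¹ y, ?_⟩⟩
  · rw [← h γ x, ← h γ y, hxy]
  · have := h γ⁻¹ y
    rwa [inv_inv] at this

end Pool.Agent.Hhelper14.ZP
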