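import Pool.Agent.Hhelper14.ZP.Integral

/-!
# Rational matrices, CM points and valuations
-/

namespace Pool.Agent.Hhelper14.ZP

open UpperHalfPlane ModularForm MatrixGroups Function Polynomial

/-- action of `GL₂(ℚ)` on the upper half plane -/
noncomputable def gact (g : GL (Fin 2) ℚ) (τ : ℍ) : ℍ :=
  Matrix.GeneralLinearGroup.map (algebraMap ℚ ℝ) g • τ

theorem gact_mul (g h : GL (Fin 2) ℚ) (τ : ℍ) : gact (g * h) τ = gact g (gact h τ) := by
  rw [gact, map_mul, mul_smul]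
  rfl

theorem gact_one (τ : ℍ) : gact 1 τ = τ := by
  rw [gact, map_one, one_smul]

theorem coe_gact {g : GL (Fin 2) ℚ} (hg : 0 < g.det.val) (τ : ℍ) :
    (gact g τ : ℂ) = ((g.1 0 0 : ℂ) * τ + (g.1 0 1 : ℂ)) / ((g.1 1 0 : ℂ) * τ + (g.1 1 1 : ℂ)) := by
  have hdet : 0 < (Matrix.GeneralLinearGroup.map (algebraMap ℚ ℝ) g).det.val := by
    have : (Matrix.GeneralLinearGroup.map (algebraMap ℚ ℝ) g).det.val = algebraMap ℚ ℝ g.det.val := by
      simp [Matrix.det_fin_two]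
    rw [this]
    simpa using hg
  rw [gact, coe_smul_of_det_pos hdet]
  simp [num, denom]

/-- constructor -/
def mkDD {N : ℕ} (A : Matrix (Fin 2) (Fin 2) ℤ) (h : A.det = (N : ℤ)) : DD N := ⟨A, h⟩

theorem coe_act_mk {N : ℕ} (hN : 0 < N) (A : Matrix (Fin 2) (Fin 2) ℤ) (h : A.det = (N : ℤ))
    (τ : ℍ) : (act hN (mkDD A h) τ : ℂ) = (A 0 0 * τ + A 0 1) / (A 1 0 * τ + A 1 1) :=
  coe_act hN (mkDD A h) τ

theorem exists_clear {ι : Type*} [Finite ι] (f : ι → ℚ) :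
    ∃ (m : ℕ) (A : ι → ℤ), 0 < m ∧ ∀ i, (A i : ℚ) = m * f i := by
  obtain ⟨b, hb⟩ := IsLocalization.exist_integer_multiples_of_finite (nonZeroDivisors ℤ) f
  have hb0 : (b : ℤ) ≠ 0 := nonZeroDivisors.coe_ne_zero b
  choose A hA using hb
  refine ⟨(b : ℤ).natAbs, fun i => (b : ℤ).sign * A i, Int.natAbs_pos.mpr hb0, fun i => ?_⟩
  have h1 : (A i : ℚ) = (b : ℤ) * f i := by
    have := hA i
    simpa [zsmul_eq_mul] using this
  have h2 : (((b : ℤ).natAbs : ℕ) : ℚ) = ((b : ℤ).sign : ℚ) * ((b : ℤ) : ℚ) := by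
    have h3 := Int.sign_mul_self_eq_abs (b : ℤ)
    have h4 : (((b : ℤ).natAbs : ℕ) : ℤ) = (b : ℤ).sign * (b : ℤ) := by
      rw [h3, Int.natCast_natAbs]
    have h5 := congrArg (fun x : ℤ => (x : ℚ)) h4
    simp only [Int.cast_mul, Int.cast_natCast] at h5
    exact h5
  push_cast
  rw [h1, h2]
  ring

/-- a rational matrix acts like an integral one -/
theorem exists_integral {g : GL (Fin 2) ℚ} (hg : 0 < g.det.val) :
    ∃ (N : ℕ) (hN : 0 < N) (A : DD N), ∀ τ : ℍ, gact g τ = act hN A τ := by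
  obtain ⟨m, A, hm, hA⟩ := exists_clear (fun p : Fin 2 × Fin 2 => g.1 p.1 p.2)
  let B : Matrix (Fin 2) (Fin 2) ℤ := fun i j => A (i, j)
  have hB : ∀ i j, (B i j : ℚ) = m * g.1 i j := fun i j => hA (i, j)
  have hdet : (B.det : ℚ) = m ^ 2 * g.det.val := by
    have h1 : g.det.val = g.1 0 0 * g.1 1 1 - g.1 0 1 * g.1 1 0 := by
      simp [Matrix.det_fin_two]
    rw [Matrix.det_fin_two, h1]
    push_cast
    rw [hB, hB, hB, hB]
    ring
  have hpos : 0 < B.det := by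
    have : (0 : ℚ) < (B.det : ℚ) := by
      rw [hdet]
      have : (0 : ℚ) < m := by exact_mod_cast hm
      positivity
    exact_mod_cast this
  have hN : 0 < B.det.toNat := by omega
  refine ⟨B.det.toNat, hN, mkDD B (Int.toNat_of_nonneg hpos.le).symm, fun τ => ?_⟩
  apply UpperHalfPlane.ext
  rw [coe_gact hg, coe_act_mk]
  have hmC : (m : ℂ) ≠ 0 := by exact_mod_cast hm.ne'
  have hBC : ∀ i j, ((B i j : ℤ) : ℂ) = m * ((g.1 i j : ℚ) : ℂ) := by
    intro i j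
    have := congrArg (fun x : ℚ => (x : ℂ)) (hB i j)
    simpa using this
  simp only [hBC]
  rw [show ((m : ℂ) * ((g.1 0 0 : ℚ) : ℂ) * (τ : ℂ) + m * ((g.1 0 1 : ℚ) : ℂ)) =
    m * (((g.1 0 0 : ℚ) : ℂ) * (τ : ℂ) + ((g.1 0 1 : ℚ) : ℂ)) by ring,
    show ((m : ℂ) * ((g.1 1 0 : ℚ) : ℂ) * (τ : ℂ) + m * ((g.1 1 1 : ℚ) : ℂ)) =
    m * (((g.1 1 0 : ℚ) : ℂ) * (τ : ℂ) + ((g.1 1 1 : ℚ) : ℂ)) by ring,
    mul_div_mul_left _ _ hmC]

/-- **modular equations for rational matrices** -/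
theorem modular_eq_rat {g : GL (Fin 2) ℚ} (hg : 0 < g.det.val) :
    ∃ Φ : Polynomial (Polynomial OO), Φ.Monic ∧ ∀ τ : ℍ,
      (Φ.map (eval₂RingHom OO.subtype (jInv τ))).eval (jInv (gact g τ)) = 0 := by
  obtain ⟨N, hN, A, hA⟩ := exists_integral hg
  obtain ⟨Φ, hΦ, hΦτ⟩ := modular_eq hN A
  refine ⟨Φ, hΦ, fun τ => ?_⟩
  have := hΦτ τ
  rwa [jA, ← hA] at this

/-- algebraic integers lie in every valuation subring -/
theorem OO_le (V : ValuationSubring ℂ) {x : ℂ} (hx : x ∈ OO) : x ∈ V := by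
  have h1 : IsIntegral ℤ x := hx
  have h2 : IsIntegral V x := h1.tower_top
  obtain ⟨y, hy⟩ := (IsIntegrallyClosed.isIntegral_iff (R := V) (K := ℂ)).mp h2
  rw [← hy]
  exact y.2

theorem mem_of_gact (V : ValuationSubring ℂ) {g : GL (Fin 2) ℚ} (hg : 0 < g.det.val) {τ : ℍ}
    (h : jInv τ ∈ V) : jInv (gact g τ) ∈ V := by
  obtain ⟨Φ, hΦ, hΦτ⟩ := modular_eq_rat hg
  let f : OO →+* V := Subring.inclusion (fun x hx => OO_le V hx)
  let e : Polynomial OO →+* V := eval₂RingHom f ⟨jInv τ, h⟩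
  have he : (algebraMap V ℂ).comp e = eval₂RingHom OO.subtype (jInv τ) := by
    apply Polynomial.ringHom_ext
    · intro a
      simp only [e, f, RingHom.comp_apply, coe_eval₂RingHom, eval₂_C]
      rfl
    · simp [e]
  have h2 : IsIntegral V (jInv (gact g τ)) := by
    refine ⟨Φ.map e, hΦ.map e, ?_⟩
    rw [← Polynomial.eval_map, Polynomial.map_map, he]
    exact hΦτ τ
  obtain ⟨y, hy⟩ := (IsIntegrallyClosed.isIntegral_iff (R := V) (K := ℂ)).mp h2
  rw [← hy]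
  exact y.2

theorem det_inv_pos {g : GL (Fin 2) ℚ} (hg : 0 < g.det.val) : 0 < (g⁻¹).det.val := by
  rw [map_inv, Units.val_inv_eq_inv_val]
  exact inv_pos.mpr hg

theorem gact_mem_iff (V : ValuationSubring ℂ) {g : GL (Fin 2) ℚ} (hg : 0 < g.det.val) {τ : ℍ} :
    jInv (gact g τ) ∈ V ↔ jInv τ ∈ V := by
  refine ⟨fun h => ?_, mem_of_gact V hg⟩
  have := mem_of_gact V (det_inv_pos hg) h
  rwa [← gact_mul, inv_mul_cancel, gact_one] at this

/-- **singular moduli are algebraic integers** -/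
theorem jInv_mem_of_isCM {τ : ℍ} (h : IsCM τ) : jInv τ ∈ OO := by
  obtain ⟨a, b, c, ha, habc⟩ := h
  -- the discriminant is negative
  have hτ := τ.im_pos
  have hτ' : (τ : ℂ).im ≠ 0 := ne_of_gt hτ
  have hD : b ^ 2 - 4 * a * c < 0 := by
    by_contra hcon
    push Not at hcon
    have h1 : (2 * (a : ℂ) * (τ : ℂ) + b) ^ 2 = ((b ^ 2 - 4 * a * c : ℤ) : ℂ) := by
      push_cast
      linear_combination 4 * (a : ℂ) * habc
    have h2 : ((b ^ 2 - 4 * a * c : ℤ) : ℂ) = ((Real.sqrt ((b ^ 2 - 4 * a * c : ℤ) : ℝ) : ℝ) : ℂ) ^ 2 := by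
      rw [← Complex.ofReal_pow, Real.sq_sqrt (by exact_mod_cast hcon)]
      simp
    rw [h2, sq_eq_sq_iff_eq_or_eq_neg] at h1
    have h3 : (2 * (a : ℂ) * (τ : ℂ) + b).im = 0 := by
      rcases h1 with h | h
      · rw [h]; simp
      · rw [h]; simp
    have h4 : (2 * (a : ℂ) * (τ : ℂ) + b).im = 2 * a * (τ : ℂ).im := by
      simp [Complex.mul_im]
    rw [h4] at h3
    have h5 : (a : ℝ) ≠ 0 := by exact_mod_cast ha
    exact (mul_ne_zero (mul_ne_zero two_ne_zero h5) hτ') h3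
  set D := b ^ 2 - 4 * a * c with hDdef
  -- choose `m` large
  obtain ⟨m, hm⟩ : ∃ m : ℤ, -D < 2 * m - b ∧ 0 < 2 * m - b := ⟨|D| + |b| + 1, by
    have h1 := neg_abs_le D
    have h2 := abs_nonneg D
    have h3 := abs_nonneg b
    have h4 := le_abs_self b
    have h5 := neg_le_abs D
    constructor <;> omega⟩
  let A : Matrix (Fin 2) (Fin 2) ℤ := !![m - b, -c; a, m]
  have hAdet : A.det = m ^ 2 - b * m + a * c := by
    simp only [A, Matrix.det_fin_two_of]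
    ring
  have h4det : 4 * A.det = (2 * m - b) ^ 2 - D := by
    rw [hAdet, hDdef]
    ring
  have hpos : 0 < A.det := by nlinarith [sq_nonneg (2 * m - b)]
  have hN : 0 < A.det.toNat := by omega
  have hNeq : ((A.det.toNat : ℕ) : ℤ) = A.det := Int.toNat_of_nonneg hpos.le
  refine jInv_mem_of_fixed hN ?_ (mkDD A hNeq.symm) τ ?_
  · intro k hk
    have h1 : ((k : ℤ)) ^ 2 = A.det := by rw [← hNeq, ← hk]; push_cast; ring
    have h2 : (2 * (k : ℤ)) ^ 2 = (2 * m - b) ^ 2 - D := by rw [← h4det, ← h1]; ring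
    have h3 : 2 * m - b < 2 * (k : ℤ) := by
      by_contra hcon
      push Not at hcon
      have : (2 * (k : ℤ)) ^ 2 ≤ (2 * m - b) ^ 2 := by
        apply pow_le_pow_left₀ (by positivity) hcon
      omega
    nlinarith
  · apply UpperHalfPlane.ext
    rw [coe_act_mk]
    have hden : ((a : ℂ) * τ + m) ≠ 0 := by
      intro h0
      have h1 := congrArg Complex.im h0
      have h5 : (a : ℝ) ≠ 0 := by exact_mod_cast ha
      simp [Complex.mul_im] at h1
      rcases h1 with h1 | h1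
      · exact ha h1
      · exact hτ' h1
    change ((m - b : ℤ) * (τ : ℂ) + ((-c : ℤ) : ℂ)) / ((a : ℂ) * τ + m) = τ
    rw [div_eq_iff hden]
    push_cast
    linear_combination -habc

end Pool.Agent.Hhelper14.ZP
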