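import Pool.Agent.Hhelper14.ZP.Gen
import Pool.Agent.Hhelper14.ZP.Rat

/-!
# Special subvarieties: CM density, dimension, modular relations
-/

namespace Pool.Agent.Hhelper14.ZP

open UpperHalfPlane MvPolynomial

/-- the CM point `i m` -/
noncomputable def imPt (m : ℕ) : ℍ := ⟨(m + 1 : ℂ) * Complex.I, by
  simp; positivity⟩

theorem coe_imPt (m : ℕ) : (imPt m : ℂ) = (m + 1 : ℂ) * Complex.I := rfl

theorem isCM_imPt (m : ℕ) : IsCM (imPt m) := by
  refine ⟨1, 0, (m + 1) ^ 2, one_ne_zero, ?_⟩
  rw [coe_imPt, mul_pow, Complex.I_sq]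
  push_cast
  ring

theorem imPt_tendsto : Filter.Tendsto imPt Filter.atTop atImInfty := by
  rw [atImInfty, Filter.tendsto_comap_iff]
  have : (UpperHalfPlane.im ∘ imPt) = fun m : ℕ => (m : ℝ) + 1 := by
    funext m
    change (imPt m : ℂ).im = _
    rw [coe_imPt]
    simp
  rw [this]
  exact Filter.tendsto_atTop_add_const_right _ _ tendsto_natCast_atTop_atTop

/-- the set of singular moduli -/
def CMj : Set ℂ := {z | ∃ τ : ℍ, IsCM τ ∧ jInv τ = z}

theorem CMj_infinite : CMj.Infinite := by
  intro hfin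
  obtain ⟨J, hJ, hJ0, hJτ⟩ := exists_J
  obtain ⟨M, hM⟩ := hfin.isBounded.exists_norm_le
  have hq : Filter.Tendsto (fun m : ℕ => Function.Periodic.qParam 1 (imPt m : ℂ)) Filter.atTop
      (nhds 0) := (qParam_tendsto_atImInfty one_pos).comp imPt_tendsto
  have h1 : Filter.Tendsto (fun m : ℕ => jInv (imPt m) *
      Function.Periodic.qParam 1 (imPt m : ℂ)) Filter.atTop (nhds 1) := by
    have h2 := (hJ.continuousAt_zero.tendsto.comp hq)
    rw [hJ0] at h2
    refine h2.congr fun m => ?_
    exact (hJτ _).symm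
  have h3 : Filter.Tendsto (fun m : ℕ => jInv (imPt m) *
      Function.Periodic.qParam 1 (imPt m : ℂ)) Filter.atTop (nhds 0) := by
    have h4 : Filter.Tendsto (fun m : ℕ => M * ‖Function.Periodic.qParam 1 (imPt m : ℂ)‖)
        Filter.atTop (nhds 0) := by
      have := (hq.norm).const_mul M
      simpa using this
    refine squeeze_zero_norm (fun m => ?_) h4
    rw [norm_mul]
    gcongr
    exact hM _ ⟨_, isCM_imPt m, rfl⟩
  exact one_ne_zero (tendsto_nhds_unique h1 h3)

theorem mem_OO_of_CMj {z : ℂ} (hz : z ∈ CMj) : z ∈ OO := by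
  obtain ⟨τ, hτ, rfl⟩ := hz
  exact jInv_mem_of_isCM hτ

/-- the values of `j ∘ g` -/
theorem values_infinite (g : GL (Fin 2) ℚ) : (Set.range fun τ : ℍ => jInv (gact g τ)).Infinite := by
  refine CMj_infinite.mono ?_
  rintro z ⟨τ, -, rfl⟩
  refine ⟨gact g⁻¹ τ, ?_⟩
  simp only
  rw [← gact_mul, mul_inv_cancel, gact_one]

variable {n : ℕ}

/-- **Dimension of special subvarieties** (lower bound) -/
theorem le_dim_special {r : ℕ} {block : Fin n → Option (Fin r)} {g : Fin n → GL (Fin 2) ℚ}
    {s : Fin n → ℍ} (hb : ∀ b : Fin r, ∃ i, block i = some b) {Z : Set (Fin n → ℂ)}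
    (hZ : Z = {x | ∃ τ : Fin r → ℍ, ∀ i, x i = (block i).elim (jInv (s i))
      (fun b => jInv (gact (g i) (τ b)))}) : (r : WithBot ℕ∞) ≤ dim Z := by
  classical
  choose sec hsec using hb
  have hsecinj : Function.Injective sec := fun b b' h => by
    have := hsec b
    rw [h, hsec b'] at this
    exact (Option.some.inj this).symm
  set J : Ideal (MvPolynomial (Fin n) ℂ) := vanishingIdeal ℂ Z with hJ
  -- the coordinates are independent
  have hinj : Function.Injective (((Ideal.Quotient.mk J).comp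
      (rename sec : MvPolynomial (Fin r) ℂ →ₐ[ℂ] MvPolynomial (Fin n) ℂ).toRingHom)) := by
    rw [injective_iff_map_eq_zero]
    intro f hf
    rw [RingHom.comp_apply, Ideal.Quotient.eq_zero_iff_mem, hJ, mem_vanishingIdeal_iff] at hf
    apply MvPolynomial.funext_set (fun b => Set.range fun τ : ℍ => jInv (gact (g (sec b)) τ))
      (fun b => values_infinite _)
    intro y hy
    have hy' : ∀ b, ∃ τ : ℍ, jInv (gact (g (sec b)) τ) = y b := fun b => hy b (Set.mem_univ b)
    choose τ hτ using hy'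
    let x : Fin n → ℂ := fun i => (block i).elim (jInv (s i)) (fun b => jInv (gact (g i) (τ b)))
    have hx : x ∈ Z := by rw [hZ]; exact ⟨τ, fun i => rfl⟩
    have h1 := hf x hx
    have h2 : x ∘ sec = y := by
      funext b
      simp only [Function.comp_apply, x, hsec b, Option.elim]
      exact hτ b
    change aeval x (rename sec f) = 0 at h1
    rw [aeval_rename, h2] at h1
    rw [map_zero]
    simpa using h1
  -- a prime above
  obtain ⟨Q, hQprime, hQ⟩ := Ideal.exists_comap_eq_of_mem_minimalPrimes_of_injective hinj ⊥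
    (by simp [IsDomain.minimalPrimes_eq_singleton_bot])
  let P : Ideal (MvPolynomial (Fin n) ℂ) := Q.comap (Ideal.Quotient.mk J)
  have hP : P.IsPrime := Ideal.IsPrime.comap _
  have hJP : J ≤ P := fun y hy => by
    change Ideal.Quotient.mk J y ∈ Q
    rw [Ideal.Quotient.eq_zero_iff_mem.mpr hy]
    exact Q.zero_mem
  obtain ⟨I, hI⟩ := exists_basis P
  have hdimP : ringKrullDim (MvPolynomial (Fin n) ℂ ⧸ P) = I.card := by
    rw [krull_eq_card hI]
    simp
  have hind : AlgebraicIndependent ℂ (fun b => xbar P (sec b)) := by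
    rw [algebraicIndependent_iff]
    intro f hf
    have h1 : aeval (fun b => xbar P (sec b)) f = Ideal.Quotient.mk P (rename sec f) := by
      have h2 : (aeval (fun b => xbar P (sec b)) : MvPolynomial (Fin r) ℂ →ₐ[ℂ] _) =
          (Ideal.Quotient.mkₐ ℂ P).comp (rename sec) := by
        ext b
        simp
      rw [h2]
      rfl
    rw [h1, Ideal.Quotient.eq_zero_iff_mem] at hf
    have h3 : f ∈ Q.comap (((Ideal.Quotient.mk J).comp
      (rename sec : MvPolynomial (Fin r) ℂ →ₐ[ℂ] MvPolynomial (Fin n) ℂ).toRingHom)) := hf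
    rw [hQ] at h3
    exact h3
  have hcard : r ≤ I.card := by
    have h1 := hind.cardinalMk_le_trdeg
    rw [← hI.cardinalMk_eq_trdeg] at h1
    simpa using h1
  calc (r : WithBot ℕ∞) ≤ (I.card : WithBot ℕ∞) := by exact_mod_cast hcard
    _ = ringKrullDim (MvPolynomial (Fin n) ℂ ⧸ P) := hdimP.symm
    _ ≤ dim Z := ringKrullDim_le_of_surjective (Ideal.Quotient.factor hJP)
      (Ideal.Quotient.factor_surjective hJP)

end Pool.Agent.Hhelper14.ZP
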